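import Pool.Agent.H88.RC.Model
import Pool.Agent.H88.RC.Sub

/-!
# The consensus protocol built on the two stages of the coin: definitions

States are normalised at every transition, so there are no silent steps.
-/

namespace RC.Cons

open Function

/-- the four kinds of registers (for every round and every process) -/
inductive Kind
  | regA | regB | coin1 | coin2
  deriving DecidableEq

/-- contents of registers: only the component of the kind of the register matters -/
structure CVal (V1 V2 : Type) where
  a : Option Bool
  b : Option (Option Bool)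
  m1 : V1
  m2 : V2

/-- local states -/
inductive CSt (S1 S2 : Type)
  /-- about to write the preference `x` to the A-register of round `r` -/
  | wA (r : ℕ) (x : Bool)
  /-- collecting A; the first `k` entries have been read; `c` = a conflicting value was seen -/
  | rA (r : ℕ) (x : Bool) (k : ℕ) (c : Bool)
  /-- collecting B; `bot` = `⊥` was seen; `v` = the value seen -/
  | rB (r : ℕ) (x : Bool) (k : ℕ) (bot : Bool) (v : Option Bool)
  /-- in the first stage of the coin of round `r` -/
  | s1 (r : ℕ) (s : S1)
  /-- in the second stage of the coin of round `r` -/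
  | s2 (r : ℕ) (s : S2)
  /-- decided `x` in round `r` -/
  | dec (r : ℕ) (x : Bool)

variable {n : ℕ}

section Protocol

variable (A : Sub n (Option Bool)) (B : Sub n Bool)

/-- enter (or continue) the second stage in the local state `s` -/
def norm2 (i : Fin n) (r : ℕ) (s : B.S) : CSt A.S B.S :=
  match B.act i s with
  | .out b => .wA (r + 1) b
  | _ => .s2 r s

/-- enter (or continue) the first stage in the local state `s` -/
def norm1 (i : Fin n) (r : ℕ) (s : A.S) : CSt A.S B.S :=
  match A.act i s with
  | .out (some b) => .wA (r + 1) b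
  | .out none => norm2 A B i r B.s0
  | _ => .s1 r s

/-- the state after `k` entries of B have been read -/
def finB (i : Fin n) (r : ℕ) (x : Bool) (k : ℕ) (bot : Bool) (v : Option Bool) : CSt A.S B.S :=
  if k < n then .rB r x k bot v
  else if bot then
    match v with
    | some y => .wA (r + 1) y
    | none => norm1 A B i r A.s0
  else .dec r x

/-- the value seen after reading an entry of B -/
def updV (w : Option (Option Bool)) (v : Option Bool) : Option Bool :=
  match w with
  | some (some y) => some y
  | _ => v

/-- the actions -/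
def cact (i : Fin n) :
    CSt A.S B.S → Act (ℕ × Kind × Fin n) (fun q => q.2.2) (CVal A.V B.V) (CSt A.S B.S) i
  | .wA r x => .write (r, .regA, i) rfl ⟨some x, none, A.v0, B.v0⟩ (.rA r x 0 false)
  | .rA r x k c =>
      if h : k < n then
        .read (r, .regA, ⟨k, h⟩) (fun v => .rA r x (k + 1) (c || decide (v.a = some (!x))))
      else
        .write (r, .regB, i) rfl ⟨none, some (if c then none else some x), A.v0, B.v0⟩
          (.rB r x 0 false none)
  | .rB r x k bot v =>
      if h : k < n then
        .read (r, .regB, ⟨k, h⟩)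
          (fun w => finB A B i r x (k + 1) (bot || decide (w.b = some none)) (updV w.b v))
      else .decide x
  | .s1 r s =>
      match A.act i s with
      | .read j next => .read (r, .coin1, j) (fun v => norm1 A B i r (next v.m1))
      | .write v next => .write (r, .coin1, i) rfl ⟨none, none, v, B.v0⟩ (norm1 A B i r next)
      | .flip next => .flip (fun b => norm1 A B i r (next b))
      | .out _ => .decide false
  | .s2 r s =>
      match B.act i s with
      | .read j next => .read (r, .coin2, j) (fun v => norm2 A B i r (next v.m2))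
      | .write v next => .write (r, .coin2, i) rfl ⟨none, none, A.v0, v⟩ (norm2 A B i r next)
      | .flip next => .flip (fun b => norm2 A B i r (next b))
      | .out _ => .decide false
  | .dec _ x => .decide x

/-- The consensus protocol. -/
def proto : Protocol n where
  Reg := ℕ × Kind × Fin n
  owner := fun q => q.2.2
  Val := CVal A.V B.V
  init := fun _ => ⟨none, none, A.v0, B.v0⟩
  St := CSt A.S B.S
  start := fun _ x => .wA 0 x
  act := cact A B

/-- Ghost configurations. -/
structure GC where
  st : Fin n → CSt A.S B.S
  /-- registers A -/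
  a : ℕ → Fin n → Option Bool
  /-- registers B -/
  b : ℕ → Fin n → Option (Option Bool)
  /-- the steps made inside the first stage of every round -/
  H1 : ℕ → List (Fin n × Bool)
  /-- the steps made inside the second stage of every round -/
  H2 : ℕ → List (Fin n × Bool)
  /-- the first process that wrote its A-register, and its value -/
  vs : ℕ → Option (Fin n × Bool)
  /-- the number of coins that have been started -/
  R : ℕ
  /-- the number of steps of every process -/
  work : Fin n → ℕ

variable {A B}

/-- replace one entry of a doubly indexed family -/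
def upd2 {α : Type} (f : ℕ → Fin n → α) (r : ℕ) (i : Fin n) (v : α) : ℕ → Fin n → α :=
  fun r' j => if r' = r ∧ j = i then v else f r' j

/-- one more step of work -/
def addW (w : Fin n → ℕ) (i : Fin n) : Fin n → ℕ := fun j => if j = i then w j + 1 else w j

/-- the ghost configuration after a step of process `i` with the coin `coin` -/
def gstep (g : GC A B) (i : Fin n) (coin : Bool) : GC A B :=
  match g.st i with
  | .wA r x =>
      { g with
        st := update g.st i (.rA r x 0 false)
        a := upd2 g.a r i (some x)
        vs := update g.vs r ((g.vs r).or (some (i, x)))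
        work := addW g.work i }
  | .rA r x k c =>
      if h : k < n then
        { g with
          st := update g.st i (.rA r x (k + 1) (c || decide (g.a r ⟨k, h⟩ = some (!x))))
          work := addW g.work i }
      else
        { g with
          st := update g.st i (.rB r x 0 false none)
          b := upd2 g.b r i (some (if c then none else some x))
          work := addW g.work i }
  | .rB r x k bot v =>
      if h : k < n then
        { g with
          st := update g.st i (finB A B i r x (k + 1) (bot || decide (g.b r ⟨k, h⟩ = some none))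
            (updV (g.b r ⟨k, h⟩) v))
          R := if k + 1 = n ∧ (bot || decide (g.b r ⟨k, h⟩ = some none)) = true ∧
              updV (g.b r ⟨k, h⟩) v = none then max g.R (r + 1) else g.R
          work := addW g.work i }
      else g
  | .s1 r _ =>
      { g with
        st := update g.st i (norm1 A B i r ((A.cfg (g.H1 r ++ [(i, coin)])).st i))
        H1 := update g.H1 r (g.H1 r ++ [(i, coin)])
        work := addW g.work i }
  | .s2 r _ =>
      { g with
        st := update g.st i (norm2 A B i r ((B.cfg (g.H2 r ++ [(i, coin)])).st i))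
        H2 := update g.H2 r (g.H2 r ++ [(i, coin)])
        work := addW g.work i }
  | .dec _ _ => g

/-- the real configuration of a ghost configuration -/
def conf (g : GC A B) : Config (proto A B) where
  st := g.st
  mem := fun q => match q with
    | (r, .regA, j) => ⟨g.a r j, none, A.v0, B.v0⟩
    | (r, .regB, j) => ⟨none, g.b r j, A.v0, B.v0⟩
    | (r, .coin1, j) => ⟨none, none, (A.cfg (g.H1 r)).mem j, B.v0⟩
    | (r, .coin2, j) => ⟨none, none, A.v0, (B.cfg (g.H2 r)).mem j⟩

variable (A B)

/-- the initial ghost configuration -/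
def ginit (inp : Fin n → Bool) : GC A B where
  st := fun i => .wA 0 (inp i)
  a := fun _ _ => none
  b := fun _ _ => none
  H1 := fun _ => []
  H2 := fun _ => []
  vs := fun _ => none
  R := 0
  work := fun _ => 0

/-- the ghost configuration after a history -/
def ghost (inp : Fin n → Bool) (h : List (Event n)) : GC A B :=
  h.foldl (fun g e => gstep g e.1 (e.2.getD false)) (ginit A B inp)

@[simp] theorem ghost_nil (inp : Fin n → Bool) : ghost A B inp [] = ginit A B inp := rfl

theorem ghost_snoc (inp : Fin n → Bool) (h : List (Event n)) (e : Event n) :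
    ghost A B inp (h ++ [e]) = gstep (ghost A B inp h) e.1 (e.2.getD false) := by
  simp [ghost, List.foldl_append]

end Protocol

/-- the round of a local state -/
def rnd {S1 S2 : Type} : CSt S1 S2 → ℕ
  | .wA r _ => r
  | .rA r _ _ _ => r
  | .rB r _ _ _ _ => r
  | .s1 r _ => r
  | .s2 r _ => r
  | .dec r _ => r

variable {A : Sub n (Option Bool)} {B : Sub n Bool}

/-- `q` has left round `r` with the value `w` -/
def LW (g : GC A B) (r : ℕ) (q : Fin n) (w : Bool) : Prop :=
  g.st q = .wA (r + 1) w ∨ g.st q = .dec r w ∨ g.a (r + 1) q = some w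

/-- `q` has finished the coin of round `r` with the output `w` -/
def COut (g : GC A B) (r : ℕ) (q : Fin n) (w : Bool) : Prop :=
  A.act q ((A.cfg (g.H1 r)).st q) = .out (some w) ∨
    (A.act q ((A.cfg (g.H1 r)).st q) = .out none ∧ B.act q ((B.cfg (g.H2 r)).st q) = .out w)

/-- `p` has passed `q` in its collect of B in round `r` without seeing `⊥` so far -/
def Pc (g : GC A B) (p : Fin n) (r : ℕ) (q : Fin n) : Prop :=
  (∃ x k v, g.st p = .rB r x k false v ∧ q.val < k ∧ g.b r p = some (some x)) ∨
    ∃ x, g.st p = .dec r x

/-- `q` sees, or will see, the value of `p` in round `r` -/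
def Qc (g : GC A B) (q : Fin n) (r : ℕ) (p : Fin n) : Prop :=
  (∃ x k bot v, g.st q = .rB r x k bot v ∧ (p.val < k → v ≠ none)) ∨
    ∃ y z, g.vs r = some (z, y) ∧ LW g r q y

/-- `q` has not yet reached the coin of round `r` -/
def Early {S1 S2 : Type} (s : CSt S1 S2) (r : ℕ) : Prop :=
  match s with
  | .wA r' _ => r' ≤ r
  | .rA r' _ _ _ => r' ≤ r
  | .rB r' _ _ _ _ => r' ≤ r
  | .s1 r' _ => r' < r
  | .s2 r' _ => r' < r
  | .dec r' _ => r' < r

/-- `q` has not yet reached the second stage of the coin of round `r` -/
def Early2 {S1 S2 : Type} (s : CSt S1 S2) (r : ℕ) : Prop :=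
  match s with
  | .wA r' _ => r' ≤ r
  | .rA r' _ _ _ => r' ≤ r
  | .rB r' _ _ _ _ => r' ≤ r
  | .s1 r' _ => r' ≤ r
  | .s2 r' _ => r' < r
  | .dec r' _ => r' < r

/-- The invariants. -/
structure Inv (inp : Fin n → Bool) (g : GC A B) : Prop where
  a_rA : ∀ i r x k c, g.st i = .rA r x k c → g.a r i = some x
  a_rB : ∀ i r x k bot v, g.st i = .rB r x k bot v → g.a r i = some x
  b_rB : ∀ i r x k bot v, g.st i = .rB r x k bot v →
    g.b r i = some none ∨ g.b r i = some (some x)
  k_rB : ∀ i r x k bot v, g.st i = .rB r x k bot v → k < n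
  k_rA : ∀ i r x k c, g.st i = .rA r x k c → k ≤ n
  b_dec : ∀ i r x, g.st i = .dec r x → g.b r i = some (some x)
  a_lt : ∀ i r, rnd (g.st i) < r → g.a r i = none
  b_lt : ∀ i r, rnd (g.st i) < r → g.b r i = none
  a_wA : ∀ i r x, g.st i = .wA r x → g.a r i = none
  b_wA : ∀ i r x, g.st i = .wA r x → g.b r i = none
  b_rA : ∀ i r x k c, g.st i = .rA r x k c → g.b r i = none
  b_gt : ∀ i r, r < rnd (g.st i) → g.b r i ≠ none
  b_s1 : ∀ i r s, g.st i = .s1 r s → g.b r i = some none
  b_s2 : ∀ i r s, g.st i = .s2 r s → g.b r i = some none
  vs_none : ∀ r j, g.vs r = none → g.a r j = none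
  vs_some : ∀ r z v, g.vs r = some (z, v) → g.a r z = some v
  rA_vs : ∀ i r x k z v, g.st i = .rA r x k false → g.vs r = some (z, v) → z.val < k → x = v
  b_val : ∀ r i y, g.b r i = some (some y) → ∃ z, g.vs r = some (z, y)
  rA_conf : ∀ i r x k, g.st i = .rA r x k true → ∃ j, g.a r j = some (!x)
  b_bot : ∀ r i, g.b r i = some none → (∃ j, g.a r j = some true) ∧ ∃ j, g.a r j = some false
  rB_bot : ∀ i r x k v, g.st i = .rB r x k true v → ∃ j, g.b r j = some none
  round_bot : ∀ i r, r < rnd (g.st i) → ∃ j, g.b r j = some none
  rB_val : ∀ i r x k bot y, g.st i = .rB r x k bot (some y) → ∃ z, g.vs r = some (z, y)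
  own : ∀ i r x k bot v, g.st i = .rB r x k bot v → i.val < k →
    (g.b r i = some none → bot = true) ∧ (∀ y, g.b r i = some (some y) → v ≠ none)
  pair : ∀ p q r, Pc g p r q → g.b r q = some none → Qc g q r p
  lv_val : ∀ r q w y, LW g r q w → g.b r q = some (some y) → w = y
  lv_bot : ∀ r q w, LW g r q w → (∃ z, g.vs r = some (z, w)) ∨ (r < g.R ∧ COut g r q w)
  st1 : ∀ i r s, g.st i = .s1 r s → s = (A.cfg (g.H1 r)).st i ∧ (∀ o, A.act i s ≠ .out o) ∧ r < g.R
  st2 : ∀ i r s, g.st i = .s2 r s → s = (B.cfg (g.H2 r)).st i ∧ (∀ o, B.act i s ≠ .out o) ∧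
    A.act i ((A.cfg (g.H1 r)).st i) = .out none ∧ r < g.R
  fresh1 : ∀ i r, Early (g.st i) r → (A.cfg (g.H1 r)).st i = A.s0
  fresh2 : ∀ i r, Early2 (g.st i) r → (B.cfg (g.H2 r)).st i = B.s0 ∧ i ∉ parts (g.H2 r)
  parts2 : ∀ i r, i ∈ parts (g.H2 r) → A.act i ((A.cfg (g.H1 r)).st i) = .out none
  H_R : ∀ r, g.R ≤ r → g.H1 r = [] ∧ g.H2 r = []
  started : ∀ r, r < g.R → ∃ i, g.b r i = some none
  inp_wA : ∀ i x, g.st i = .wA 0 x → x = inp i
  inp_a : ∀ i x, g.a 0 i = some x → x = inp i

end RC.Cons
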