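import Pool.Agent.H27.RC.Defs

/-!
# One step of the ghost configuration, by cases
-/

namespace RC.Cons

open Function

variable {n : ℕ} {A : Sub n (Option Bool)} {B : Sub n Bool}

section SubFacts

variable {O : Type} (P : Sub n O)

theorem step_st_ne (c : SCfg P) (i : Fin n) (b : Bool) {j : Fin n} (hj : j ≠ i) :
    (P.step c i b).st j = c.st j := by
  unfold Sub.step
  split <;> simp [hj]

theorem step_mem_ne (c : SCfg P) (i : Fin n) (b : Bool) {j : Fin n} (hj : j ≠ i) :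
    (P.step c i b).mem j = c.mem j := by
  unfold Sub.step
  split <;> simp [hj]

theorem cfg_st_ne (h : List (Fin n × Bool)) (i : Fin n) (b : Bool) {j : Fin n} (hj : j ≠ i) :
    (P.cfg (h ++ [(i, b)])).st j = (P.cfg h).st j := by
  rw [Sub.cfg_snoc]; exact step_st_ne P _ _ _ hj

theorem cfg_mem_ne (h : List (Fin n × Bool)) (i : Fin n) (b : Bool) {j : Fin n} (hj : j ≠ i) :
    (P.cfg (h ++ [(i, b)])).mem j = (P.cfg h).mem j := by
  rw [Sub.cfg_snoc]; exact step_mem_ne P _ _ _ hj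

end SubFacts

theorem norm2_cases (i : Fin n) (r : ℕ) (s : B.S) :
    (∃ w, B.act i s = .out w ∧ norm2 A B i r s = .wA (r + 1) w) ∨
      ((∀ o, B.act i s ≠ .out o) ∧ norm2 A B i r s = .s2 r s) := by
  unfold norm2
  cases h : B.act i s <;> simp

theorem norm1_cases (i : Fin n) (r : ℕ) (s : A.S) :
    (∃ w, A.act i s = .out (some w) ∧ norm1 A B i r s = .wA (r + 1) w) ∨
      (A.act i s = .out none ∧ norm1 A B i r s = norm2 A B i r B.s0) ∨
      ((∀ o, A.act i s ≠ .out o) ∧ norm1 A B i r s = .s1 r s) := by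
  unfold norm1
  cases h : A.act i s with
  | out o => cases o <;> simp
  | _ => simp

/-- the states in which a process may be after a step that ends in the coin of round `r` -/
def CS (H1 H2 : ℕ → List (Fin n × Bool)) (r : ℕ) (i : Fin n) (t : CSt A.S B.S) : Prop :=
  (∃ w, t = .wA (r + 1) w ∧ (A.act i ((A.cfg (H1 r)).st i) = .out (some w) ∨
      (A.act i ((A.cfg (H1 r)).st i) = .out none ∧ B.act i ((B.cfg (H2 r)).st i) = .out w))) ∨
    (t = .s1 r ((A.cfg (H1 r)).st i) ∧ ∀ o, A.act i ((A.cfg (H1 r)).st i) ≠ .out o) ∨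
    (t = .s2 r ((B.cfg (H2 r)).st i) ∧ A.act i ((A.cfg (H1 r)).st i) = .out none ∧
      ∀ o, B.act i ((B.cfg (H2 r)).st i) ≠ .out o)

theorem CS_norm2 (H1 H2 : ℕ → List (Fin n × Bool)) (r : ℕ) (i : Fin n) (s : B.S)
    (h1 : A.act i ((A.cfg (H1 r)).st i) = .out none) (hs : s = (B.cfg (H2 r)).st i) :
    CS H1 H2 r i (norm2 A B i r s) := by
  rcases norm2_cases (A := A) i r s with ⟨w, h, h'⟩ | ⟨h, h'⟩
  · exact Or.inl ⟨w, h', Or.inr ⟨h1, hs ▸ h⟩⟩
  · exact Or.inr (Or.inr ⟨hs ▸ h', h1, hs ▸ h⟩)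

theorem CS_norm1 (H1 H2 : ℕ → List (Fin n × Bool)) (r : ℕ) (i : Fin n) (s : A.S)
    (hs : s = (A.cfg (H1 r)).st i) (h2 : (B.cfg (H2 r)).st i = B.s0) :
    CS H1 H2 r i (norm1 A B i r s) := by
  rcases norm1_cases (B := B) i r s with ⟨w, h, h'⟩ | ⟨h, h'⟩ | ⟨h, h'⟩
  · exact Or.inl ⟨w, h', Or.inl (hs ▸ h)⟩
  · rw [h']
    exact CS_norm2 H1 H2 r i B.s0 (hs ▸ h) h2.symm
  · exact Or.inr (Or.inl ⟨hs ▸ h', hs ▸ h⟩)

/-- One step, by cases. -/
inductive Ev (g : GC A B) (i : Fin n) (coin : Bool) (g' : GC A B) : Prop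
  | wA (r : ℕ) (x : Bool) (hs : g.st i = .wA r x)
      (hg : g' = ⟨update g.st i (.rA r x 0 false), upd2 g.a r i (some x), g.b, g.H1, g.H2,
        update g.vs r ((g.vs r).or (some (i, x))), g.R, addW g.work i⟩)
  | rA (r : ℕ) (x : Bool) (k : ℕ) (c : Bool) (hs : g.st i = .rA r x k c) (hk : k < n)
      (hg : g' = ⟨update g.st i (.rA r x (k + 1) (c || decide (g.a r ⟨k, hk⟩ = some (!x)))),
        g.a, g.b, g.H1, g.H2, g.vs, g.R, addW g.work i⟩)
  | wB (r : ℕ) (x : Bool) (k : ℕ) (c : Bool) (hs : g.st i = .rA r x k c) (hk : ¬ k < n)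
      (hg : g' = ⟨update g.st i (.rB r x 0 false none), g.a,
        upd2 g.b r i (some (if c then none else some x)), g.H1, g.H2, g.vs, g.R, addW g.work i⟩)
  | rB (r : ℕ) (x : Bool) (k : ℕ) (bot : Bool) (v : Option Bool) (hs : g.st i = .rB r x k bot v)
      (hk : k < n) (hk' : k + 1 < n)
      (hg : g' = ⟨update g.st i (.rB r x (k + 1) (bot || decide (g.b r ⟨k, hk⟩ = some none))
        (updV (g.b r ⟨k, hk⟩) v)), g.a, g.b, g.H1, g.H2, g.vs, g.R, addW g.work i⟩)
  | fdec (r : ℕ) (x : Bool) (k : ℕ) (bot : Bool) (v : Option Bool) (hs : g.st i = .rB r x k bot v)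
      (hk : k < n) (hk' : k + 1 = n) (hb : (bot || decide (g.b r ⟨k, hk⟩ = some none)) = false)
      (hg : g' = ⟨update g.st i (.dec r x), g.a, g.b, g.H1, g.H2, g.vs, g.R, addW g.work i⟩)
  | fval (r : ℕ) (x : Bool) (k : ℕ) (bot : Bool) (v : Option Bool) (y : Bool)
      (hs : g.st i = .rB r x k bot v)
      (hk : k < n) (hk' : k + 1 = n) (hb : (bot || decide (g.b r ⟨k, hk⟩ = some none)) = true)
      (hv : updV (g.b r ⟨k, hk⟩) v = some y)
      (hg : g' = ⟨update g.st i (.wA (r + 1) y), g.a, g.b, g.H1, g.H2, g.vs, g.R,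
        addW g.work i⟩)
  | coin (r : ℕ) (t : CSt A.S B.S) (h1 h2 : ℕ → List (Fin n × Bool)) (hCS : CS h1 h2 r i t)
      (old : (∃ x k bot v, ∃ hk : k < n, g.st i = .rB r x k bot v ∧ k + 1 = n ∧
          (bot || decide (g.b r ⟨k, hk⟩ = some none)) = true ∧ updV (g.b r ⟨k, hk⟩) v = none ∧
          h1 = g.H1 ∧ h2 = g.H2) ∨
        (∃ s, g.st i = .s1 r s ∧ h1 = update g.H1 r (g.H1 r ++ [(i, coin)]) ∧ h2 = g.H2) ∨
        ∃ s, g.st i = .s2 r s ∧ h1 = g.H1 ∧ h2 = update g.H2 r (g.H2 r ++ [(i, coin)]))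
      (hg : g' = ⟨update g.st i t, g.a, g.b, h1, h2, g.vs, max g.R (r + 1), addW g.work i⟩)
  | dec (r : ℕ) (x : Bool) (hs : g.st i = .dec r x) (hg : g' = g)

theorem gstep_ev {inp : Fin n → Bool} {g : GC A B} (hg : Inv inp g) (i : Fin n) (coin : Bool) :
    Ev g i coin (gstep g i coin) := by
  cases hs : g.st i with
  | wA r x => exact .wA r x hs (by simp [gstep, hs])
  | rA r x k c =>
    by_cases hk : k < n
    · exact .rA r x k c hs hk (by simp [gstep, hs, hk])
    · exact .wB r x k c hs hk (by simp [gstep, hs, hk])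
  | rB r x k bot v =>
    have hk := hg.k_rB i r x k bot v hs
    by_cases hk' : k + 1 < n
    · refine .rB r x k bot v hs hk hk' ?_
      have hne : ¬ (k + 1 = n) := by omega
      simp [gstep, hs, hk, finB, hk', hne]
    · have hkn : k + 1 = n := by omega
      by_cases hb : (bot || decide (g.b r ⟨k, hk⟩ = some none)) = true
      · cases hv : updV (g.b r ⟨k, hk⟩) v with
        | some y =>
          refine .fval r x k bot v y hs hk hkn hb hv ?_
          simp only [gstep, hs, hk, finB, hk', hb, hv, dite_true]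
          simp
        | none =>
          refine .coin r (norm1 A B i r A.s0) g.H1 g.H2 ?_
            (Or.inl ⟨x, k, bot, v, hk, hs, hkn, hb, hv, rfl, rfl⟩) ?_
          · have e1 : Early (g.st i) r := by rw [hs]; exact le_refl _
            have e2 : Early2 (g.st i) r := by rw [hs]; exact le_refl _
            exact CS_norm1 _ _ _ _ _ (hg.fresh1 i r e1).symm (hg.fresh2 i r e2).1
          · simp only [gstep, hs, hk, finB, hb, hv, dite_true, hkn]
            simp
      · have hb' : (bot || decide (g.b r ⟨k, hk⟩ = some none)) = false := by simpa using hb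
        refine .fdec r x k bot v hs hk hkn hb' ?_
        simp only [gstep, hs, hk, finB, hk', hb', dite_true]
        simp
  | s1 r s =>
    have h1 := hg.st1 i r s hs
    refine .coin r (norm1 A B i r ((A.cfg (g.H1 r ++ [(i, coin)])).st i))
      (update g.H1 r (g.H1 r ++ [(i, coin)])) g.H2 ?_ (Or.inr (Or.inl ⟨s, hs, rfl, rfl⟩)) ?_
    · have e2 : Early2 (g.st i) r := by rw [hs]; exact le_refl _
      exact CS_norm1 _ _ _ _ _ (by simp) (hg.fresh2 i r e2).1
    · have : max g.R (r + 1) = g.R := max_eq_left h1.2.2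
      simp [gstep, hs, this]
  | s2 r s =>
    have h2 := hg.st2 i r s hs
    refine .coin r (norm2 A B i r ((B.cfg (g.H2 r ++ [(i, coin)])).st i)) g.H1
      (update g.H2 r (g.H2 r ++ [(i, coin)])) ?_ (Or.inr (Or.inr ⟨s, hs, rfl, rfl⟩)) ?_
    · exact CS_norm2 _ _ _ _ _ h2.2.2.1 (by simp)
    · have : max g.R (r + 1) = g.R := max_eq_left h2.2.2.2
      simp [gstep, hs, this]
  | dec r x => exact .dec r x hs (by simp [gstep, hs])

end RC.Cons
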