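import Pool.Agent.H27.RC.Main

/-!
# Agreement, validity and the facts used for the potential
-/

namespace RC.Cons

open Function

variable {n : ℕ} {A : Sub n (Option Bool)} {B : Sub n Bool}

theorem decides_conf {inp : Fin n → Bool} {g : GC A B} (hg : Inv inp g) (i : Fin n) (x : Bool) :
    (proto A B).Decides (conf g) i x ↔ ∃ r, g.st i = .dec r x := by
  show cact A B i (g.st i) = .decide x ↔ _
  cases hs : g.st i with
  | wA r y => simp [cact]
  | rA r y k c =>
    simp only [cact]
    split <;> simp
  | rB r y k bot v =>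
    have hk := hg.k_rB i r y k bot v hs
    simp [cact, hk]
  | s1 r s =>
    obtain ⟨hst, hno, hlt⟩ := hg.st1 i r s hs
    simp only [cact]
    cases ha : A.act i s with
    | out o => exact absurd ha (hno o)
    | _ => simp
  | s2 r s =>
    obtain ⟨hst, hno, hlt⟩ := hg.st2 i r s hs
    simp only [cact]
    cases ha : B.act i s with
    | out o => exact absurd ha (hno o)
    | _ => simp
  | dec r y => simp [cact]

open Classical in
theorem gstep_work {inp : Fin n → Bool} {g : GC A B} (hg : Inv inp g) (i : Fin n) (coin : Bool)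
    (j : Fin n) : (gstep g i coin).work j =
      g.work j + if i = j ∧ ∀ b, ¬ (proto A B).Decides (conf g) j b then 1 else 0 := by
  have key : ∀ w : Fin n → ℕ, (∀ r x, g.st i ≠ .dec r x) →
      addW w i j = w j + if i = j ∧ ∀ b, ¬ (proto A B).Decides (conf g) j b then 1 else 0 := by
    intro w h
    unfold addW
    by_cases hij : i = j
    · subst hij
      have : ∀ b, ¬ (proto A B).Decides (conf g) i b := by
        intro b hb
        obtain ⟨r, hr⟩ := (decides_conf hg i b).1 hb
        exact h r b hr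
      simp [this]
    · have hji : ¬ j = i := fun h => hij h.symm
      simp [hij, hji]
  rcases gstep_ev hg i coin with ⟨r, x, hs, e⟩ | ⟨r, x, k, c, hs, hk, e⟩ | ⟨r, x, k, c, hs, hk, e⟩ |
    ⟨r, x, k, bot, v, hs, hk, hk', e⟩ | ⟨r, x, k, bot, v, hs, hk, hk', hb, e⟩ |
    ⟨r, x, k, bot, v, y, hs, hk, hk', hb, hv, e⟩ | ⟨r, t, h1, h2, hCS, old, e⟩ | ⟨r, x, hs, e⟩
  · rw [e]; exact key _ (by rw [hs]; simp)
  · rw [e]; exact key _ (by rw [hs]; simp)
  · rw [e]; exact key _ (by rw [hs]; simp)
  · rw [e]; exact key _ (by rw [hs]; simp)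
  · rw [e]; exact key _ (by rw [hs]; simp)
  · rw [e]; exact key _ (by rw [hs]; simp)
  · rw [e]
    refine key _ ?_
    rcases old with ⟨x, k, bot, v, hk, h, _⟩ | ⟨s, h, _⟩ | ⟨s, h, _⟩ <;> rw [h] <;> simp
  · rw [e]
    have : ¬ (i = j ∧ ∀ b, ¬ (proto A B).Decides (conf g) j b) := by
      rintro ⟨rfl, h⟩
      exact h x ((decides_conf hg i x).2 ⟨r, hs⟩)
    rw [if_neg this, add_zero]

open Classical in
theorem work_fold (P : Protocol n) (inp : Fin n → Bool) (h : List (Event n)) (i : Fin n) :
    (h.foldl (fun (cm : Config P × ℕ) e => (P.step cm.1 e.1 (e.2.getD false),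
      cm.2 + if e.1 = i ∧ ∀ b, ¬ P.Decides cm.1 i b then 1 else 0)) (P.initCfg inp, 0)).1 =
      P.cfgOf inp h := by
  induction h using List.reverseRecOn with
  | nil => rfl
  | append_singleton h e ih =>
    rw [List.foldl_append, Protocol.cfgOf_snoc, ← ih]
    rfl

open Classical in
theorem work_snoc (P : Protocol n) (inp : Fin n → Bool) (h : List (Event n)) (e : Event n)
    (i : Fin n) : P.work inp (h ++ [e]) i =
      P.work inp h i + if e.1 = i ∧ ∀ b, ¬ P.Decides (P.cfgOf inp h) i b then 1 else 0 := by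
  unfold Protocol.work
  rw [List.foldl_append, ← work_fold P inp h i]
  rfl

theorem work_ghost (inp : Fin n → Bool) (h : List (Event n)) (i : Fin n) :
    (proto A B).work inp h i = (ghost A B inp h).work i := by
  induction h using List.reverseRecOn with
  | nil => rfl
  | append_singleton h e ih =>
    rw [work_snoc, ghost_snoc, gstep_work (inv_ghost inp h), ih, conf_ghost]

/-- both values are written in a round in which `⊥` is written -/
theorem Inv.conflict {inp : Fin n → Bool} {g : GC A B} (hg : Inv inp g) {r : ℕ}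
    (h : ∃ j, g.b r j = some none) (v : Bool) : ∃ j, g.a r j = some v := by
  obtain ⟨j, hj⟩ := h
  have := hg.b_bot r j hj
  cases v
  · exact this.2
  · exact this.1

theorem Inv.vs_of_bot {inp : Fin n → Bool} {g : GC A B} (hg : Inv inp g) {r : ℕ}
    (h : ∃ j, g.b r j = some none) : ∃ z v, g.vs r = some (z, v) := by
  obtain ⟨j, hj⟩ := hg.conflict h true
  cases hv : g.vs r with
  | none => rw [hg.vs_none r j hv] at hj; exact absurd hj (by simp)
  | some u => exact ⟨u.1, u.2, rfl⟩

/-- if `⊥` is written in round `r + 1` then the coin of round `r` has a wrong output -/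
theorem Inv.wrong {inp : Fin n → Bool} {g : GC A B} (hg : Inv inp g) {r : ℕ}
    (h : ∃ j, g.b (r + 1) j = some none) :
    r < g.R ∧ ∃ z v q, g.vs r = some (z, v) ∧ COut g r q (!v) := by
  have hbr : ∃ j, g.b r j = some none := by
    obtain ⟨j, hj⟩ := h
    refine hg.round_bot j r ?_
    by_contra hlt
    have := hg.b_lt j (r + 1) (by omega)
    rw [this] at hj
    exact absurd hj (by simp)
  obtain ⟨z, v, hv⟩ := hg.vs_of_bot hbr
  obtain ⟨q, hq⟩ := hg.conflict h (!v)
  have hlw : LW g r q (!v) := Or.inr (Or.inr hq)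
  rcases hg.lv_bot r q (!v) hlw with ⟨z', hz'⟩ | ⟨h1, h2⟩
  · rw [hv] at hz'
    simp only [Option.some.injEq, Prod.mk.injEq] at hz'
    exact absurd hz'.2 (by cases v <;> simp)
  · exact ⟨h1, z, v, q, hv, h2⟩

/-- fact (4) -/
theorem Inv.rnd_le {inp : Fin n → Bool} {g : GC A B} (hg : Inv inp g) (i : Fin n) :
    rnd (g.st i) ≤ g.R + 1 := by
  by_contra h
  obtain ⟨r, hr⟩ : ∃ r, rnd (g.st i) = r + 2 := ⟨rnd (g.st i) - 2, by omega⟩
  have := (hg.wrong (hg.round_bot i (r + 1) (by omega))).1
  omega

/-- a started coin has a first value -/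
theorem Inv.vs_of_lt {inp : Fin n → Bool} {g : GC A B} (hg : Inv inp g) {r : ℕ} (hr : r < g.R) :
    ∃ z v, g.vs r = some (z, v) := hg.vs_of_bot (hg.started r hr)

/-- `vs` never changes once it is set -/
theorem vs_gstep (g : GC A B) (i : Fin n) (coin : Bool) {r : ℕ} {z : Fin n × Bool}
    (h : g.vs r = some z) : (gstep g i coin).vs r = some z := by
  unfold gstep
  split
  · by_cases hr : r = ‹ℕ›
    · subst hr; simp [h]
    · simp [hr, h]
  · split <;> exact h
  · split <;> exact h
  · exact h
  · exact h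
  · exact h

/-- what happens to `H1`, `H2`, `R` in one step: nothing, or a step inside one of the stages, or a
coin is started (and then the previous coin has a wrong output; fact (3)) -/
theorem gstep_cases {inp : Fin n → Bool} {g : GC A B} (hg : Inv inp g) (i : Fin n) (coin : Bool) :
    ((gstep g i coin).H1 = g.H1 ∧ (gstep g i coin).H2 = g.H2 ∧ (gstep g i coin).R = g.R ∧
      (∀ r s, g.st i ≠ .s1 r s) ∧ (∀ r s, g.st i ≠ .s2 r s)) ∨
    (∃ r s, g.st i = .s1 r s ∧ r < g.R ∧
      (gstep g i coin).H1 = update g.H1 r (g.H1 r ++ [(i, coin)]) ∧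
      (gstep g i coin).H2 = g.H2 ∧ (gstep g i coin).R = g.R) ∨
    (∃ r s, g.st i = .s2 r s ∧ r < g.R ∧ A.Outs (g.H1 r) i none ∧
      (gstep g i coin).H2 = update g.H2 r (g.H2 r ++ [(i, coin)]) ∧
      (gstep g i coin).H1 = g.H1 ∧ (gstep g i coin).R = g.R) ∨
    ((gstep g i coin).H1 = g.H1 ∧ (gstep g i coin).H2 = g.H2 ∧ (gstep g i coin).R = g.R + 1 ∧
      g.H1 g.R = [] ∧ g.H2 g.R = [] ∧ (∀ r s, g.st i ≠ .s1 r s) ∧ (∀ r s, g.st i ≠ .s2 r s) ∧
      (∀ r, g.R = r + 1 → ∃ z v q, g.vs r = some (z, v) ∧ COut g r q (!v))) := by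
  rcases gstep_ev hg i coin with ⟨r, x, hs, e⟩ | ⟨r, x, k, c, hs, hk, e⟩ | ⟨r, x, k, c, hs, hk, e⟩ |
    ⟨r, x, k, bot, v, hs, hk, hk', e⟩ | ⟨r, x, k, bot, v, hs, hk, hk', hb, e⟩ |
    ⟨r, x, k, bot, v, y, hs, hk, hk', hb, hv, e⟩ | ⟨r, t, h1, h2, hCS, old, e⟩ | ⟨r, x, hs, e⟩
  · left; rw [e, hs]; simp
  · left; rw [e, hs]; simp
  · left; rw [e, hs]; simp
  · left; rw [e, hs]; simp
  · left; rw [e, hs]; simp
  · left; rw [e, hs]; simp
  · rw [e]
    rcases old with ⟨x, k, bot, v, hk, hs, hkn, hb, hv, e1, e2⟩ | ⟨s, hs, e1, e2⟩ | ⟨s, hs, e1, e2⟩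
    · subst e1 e2
      by_cases hR : r + 1 ≤ g.R
      · left
        rw [hs]
        simp [hR]
      · right; right; right
        -- `i` has written `⊥` in round `r`
        have hbi : g.b r i = some none := by
          rcases hg.b_rB _ _ _ _ _ _ hs with h0 | h0
          · exact h0
          · exfalso
            rcases Nat.lt_or_ge i.val k with h3 | h3
            · exact updV_ne_none _ _ ((hg.own _ _ _ _ _ _ hs h3).2 _ h0) hv
            · have : i = ⟨k, hk⟩ := Fin.ext (by have := i.isLt; simp; omega)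
              rw [← this, h0] at hv
              simp [updV] at hv
        have hRr : g.R = r := by
          rcases Nat.eq_zero_or_pos r with h0 | h0
          · omega
          · obtain ⟨r', rfl⟩ : ∃ r', r = r' + 1 := ⟨r - 1, by omega⟩
            have := (hg.wrong ⟨i, hbi⟩).1
            omega
        have hmax : max g.R (r + 1) = g.R + 1 := by rw [hRr]; simp
        refine ⟨rfl, rfl, hmax, (hg.H_R g.R le_rfl).1, (hg.H_R g.R le_rfl).2, ?_, ?_, ?_⟩
        · rw [hs]; simp
        · rw [hs]; simp
        · intro r' hr'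
          have : r = r' + 1 := by omega
          subst this
          exact (hg.wrong ⟨i, hbi⟩).2
    · right; left
      have hlt := (hg.st1 i r s hs).2.2
      exact ⟨r, s, hs, hlt, e1, e2, max_eq_left hlt⟩
    · right; right; left
      have h := hg.st2 i r s hs
      exact ⟨r, s, hs, h.2.2.2, h.2.2.1, e2, e1, max_eq_left h.2.2.2⟩
  · left; rw [e, hs]; simp

/-- a process flips in the protocol iff it flips in the stage in which it is -/
theorem isFlip_iff {inp : Fin n → Bool} {g : GC A B} (hg : Inv inp g) (i : Fin n) :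
    (proto A B).IsFlip (conf g) i ↔
      (∃ r s, g.st i = .s1 r s ∧ A.IsFlip (A.cfg (g.H1 r)) i) ∨
      (∃ r s, g.st i = .s2 r s ∧ B.IsFlip (B.cfg (g.H2 r)) i) := by
  show (∃ next, cact A B i (g.st i) = .flip next) ↔ _
  cases hs : g.st i with
  | wA r y => simp [cact]
  | rA r y k c =>
    simp only [cact]
    split <;> simp
  | rB r y k bot v =>
    have hk := hg.k_rB i r y k bot v hs
    simp [cact, hk]
  | s1 r s =>
    obtain ⟨hst, hno, hlt⟩ := hg.st1 i r s hs
    have : A.IsFlip (A.cfg (g.H1 r)) i ↔ ∃ next, A.act i s = .flip next := by rw [hst]; rfl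
    simp only [cact]
    cases ha : A.act i s with
    | out o => exact absurd ha (hno o)
    | flip next =>
      simp only [Act.flip.injEq, exists_eq', true_iff]
      exact Or.inl ⟨r, s, rfl, this.2 ⟨next, ha⟩⟩
    | read j next =>
      simp only [reduceCtorEq, exists_false, false_iff, not_or, not_exists]
      refine ⟨?_, by simp⟩
      rintro r' s' ⟨h1, h2⟩
      simp only [CSt.s1.injEq] at h1
      obtain ⟨rfl, rfl⟩ := h1
      obtain ⟨nx, hnx⟩ := this.1 h2
      rw [ha] at hnx
      exact absurd hnx (by simp)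
    | write v next =>
      simp only [reduceCtorEq, exists_false, false_iff, not_or, not_exists]
      refine ⟨?_, by simp⟩
      rintro r' s' ⟨h1, h2⟩
      simp only [CSt.s1.injEq] at h1
      obtain ⟨rfl, rfl⟩ := h1
      obtain ⟨nx, hnx⟩ := this.1 h2
      rw [ha] at hnx
      exact absurd hnx (by simp)
  | s2 r s =>
    obtain ⟨hst, hno, -, hlt⟩ := hg.st2 i r s hs
    have : B.IsFlip (B.cfg (g.H2 r)) i ↔ ∃ next, B.act i s = .flip next := by rw [hst]; rfl
    simp only [cact]
    cases ha : B.act i s with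
    | out o => exact absurd ha (hno o)
    | flip next =>
      simp only [Act.flip.injEq, exists_eq', true_iff]
      exact Or.inr ⟨r, s, rfl, this.2 ⟨next, ha⟩⟩
    | read j next =>
      simp only [reduceCtorEq, exists_false, false_iff, not_or, not_exists]
      refine ⟨by simp, ?_⟩
      rintro r' s' ⟨h1, h2⟩
      simp only [CSt.s2.injEq] at h1
      obtain ⟨rfl, rfl⟩ := h1
      obtain ⟨nx, hnx⟩ := this.1 h2
      rw [ha] at hnx
      exact absurd hnx (by simp)
    | write v next =>
      simp only [reduceCtorEq, exists_false, false_iff, not_or, not_exists]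
      refine ⟨by simp, ?_⟩
      rintro r' s' ⟨h1, h2⟩
      simp only [CSt.s2.injEq] at h1
      obtain ⟨rfl, rfl⟩ := h1
      obtain ⟨nx, hnx⟩ := this.1 h2
      rw [ha] at hnx
      exact absurd hnx (by simp)
  | dec r y => simp [cact]

/-- if somebody has decided in round `r`, everybody leaves round `r` with this value -/
theorem Inv.dec_lw {inp : Fin n → Bool} {g : GC A B} (hg : Inv inp g) {p q : Fin n} {r : ℕ}
    {x w : Bool} (hp : g.st p = .dec r x) (hq : LW g r q w) : w = x := by
  have hbp := hg.b_dec p r x hp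
  obtain ⟨z, hz⟩ := hg.b_val r p x hbp
  have hrq : r < rnd (g.st q) ∨ g.st q = .dec r w := by
    rcases hq with h | h | h
    · left; rw [h]; exact Nat.lt_succ_self r
    · exact Or.inr h
    · left
      by_contra hlt
      rw [hg.a_lt q (r + 1) (by omega)] at h
      exact absurd h (by simp)
  cases hbq : g.b r q with
  | none =>
    exfalso
    rcases hrq with h | h
    · exact hg.b_gt q r h hbq
    · rw [hg.b_dec q r w h] at hbq; exact absurd hbq (by simp)
  | some u =>
    cases u with
    | none =>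
      rcases hg.pair p q r (Or.inr ⟨x, hp⟩) hbq with ⟨x1, k1, b1, v1, h1, _⟩ | ⟨y, z', hv, hlw⟩
      · exfalso
        rcases hrq with h | h
        · rw [h1] at h; exact absurd h (lt_irrefl _)
        · rw [h1] at h; exact absurd h (by simp)
      · have hy : y = x := by
          rw [hz] at hv
          simp only [Option.some.injEq, Prod.mk.injEq] at hv
          exact hv.2.symm
        rw [← hy]
        -- `LW` is functional
        rcases hq with h | h | h <;> rcases hlw with h' | h' | h'
        · rw [h] at h'; simpa using h'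
        · rw [h] at h'; exact absurd h' (by simp)
        · rw [hg.a_wA q (r + 1) w h] at h'; exact absurd h' (by simp)
        · rw [h] at h'; exact absurd h' (by simp)
        · rw [h] at h'; simpa using h'
        · rw [hg.a_lt q (r + 1) (by rw [h]; exact Nat.lt_succ_self r)] at h'
          exact absurd h' (by simp)
        · rw [hg.a_wA q (r + 1) y h'] at h; exact absurd h (by simp)
        · rw [hg.a_lt q (r + 1) (by rw [h']; exact Nat.lt_succ_self r)] at h
          exact absurd h (by simp)
        · rw [h] at h'; simpa using h'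
    | some y =>
      obtain ⟨z', hz'⟩ := hg.b_val r q y hbq
      rw [hz] at hz'
      simp only [Option.some.injEq, Prod.mk.injEq] at hz'
      rw [hz'.2]
      exact hg.lv_val r q w y hq hbq

theorem Inv.agree {inp : Fin n → Bool} {g : GC A B} (hg : Inv inp g) {p q : Fin n} {r r' : ℕ}
    {x y : Bool} (hp : g.st p = .dec r x) (hq : g.st q = .dec r' y) (hrr : r ≤ r') : y = x := by
  rcases Nat.eq_or_lt_of_le hrr with h | h
  · subst h
    exact hg.dec_lw hp (Or.inr (Or.inl hq))
  · -- all values written to A in round `r + 1` are `x`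
    have hA : ∀ j w, g.a (r + 1) j = some w → w = x := fun j w hj =>
      hg.dec_lw hp (Or.inr (Or.inr hj))
    have hnobot : ∀ j, g.b (r + 1) j ≠ some none := by
      intro j hj
      obtain ⟨l, hl⟩ := hg.conflict ⟨j, hj⟩ (!x)
      have := hA l _ hl
      cases x <;> simp at this
    have hr' : r' = r + 1 := by
      by_contra hne
      obtain ⟨j, hj⟩ := hg.round_bot q (r + 1) (by rw [hq]; show r + 1 < r'; omega)
      exact hnobot j hj
    subst hr'
    obtain ⟨z, hz⟩ := hg.b_val _ _ _ (hg.b_dec q _ y hq)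
    exact hA z y (hg.vs_some _ _ _ hz)

theorem agreement (inp : Fin n → Bool) (h : List (Event n)) (i j : Fin n) (b b' : Bool)
    (hi : (proto A B).Decides ((proto A B).cfgOf inp h) i b)
    (hj : (proto A B).Decides ((proto A B).cfgOf inp h) j b') : b = b' := by
  rw [← conf_ghost] at hi hj
  have hg := inv_ghost (A := A) (B := B) inp h
  obtain ⟨r, hr⟩ := (decides_conf hg i b).1 hi
  obtain ⟨r', hr'⟩ := (decides_conf hg j b').1 hj
  rcases le_total r r' with hrr | hrr
  · exact (hg.agree hr hr' hrr).symm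
  · exact hg.agree hr' hr hrr

theorem validity (inp : Fin n → Bool) (h : List (Event n)) (i : Fin n) (b : Bool)
    (hi : (proto A B).Decides ((proto A B).cfgOf inp h) i b) : ∃ j, inp j = b := by
  rw [← conf_ghost] at hi
  have hg := inv_ghost (A := A) (B := B) inp h
  obtain ⟨r, hr⟩ := (decides_conf hg i b).1 hi
  by_contra hno
  push Not at hno
  have hA : ∀ j w, (ghost A B inp h).a 0 j = some w → w = !b := by
    intro j w hw
    have h1 := hg.inp_a j w hw
    have h2 := hno j
    rw [h1]
    cases hb : b <;> cases hj : inp j <;> simp_all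
  have hnobot : ∀ j, (ghost A B inp h).b 0 j ≠ some none := by
    intro j hj
    obtain ⟨l, hl⟩ := hg.conflict ⟨j, hj⟩ b
    have := hA l _ hl
    cases b <;> simp at this
  have hr0 : r = 0 := by
    by_contra hne
    obtain ⟨j, hj⟩ := hg.round_bot i 0 (by rw [hr]; show 0 < r; omega)
    exact hnobot j hj
  subst hr0
  obtain ⟨z, hz⟩ := hg.b_val _ _ _ (hg.b_dec i _ b hr)
  have := hA z b (hg.vs_some _ _ _ hz)
  cases b <;> simp at this

end RC.Cons
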