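import Pool.Agent.H27.RC.Ev

/-!
# The invariants of the consensus protocol are preserved by every step (part 1)
-/

namespace RC.Cons

open Function

variable {n : ℕ} {A : Sub n (Option Bool)} {B : Sub n Bool}

theorem inv_wA {inp : Fin n → Bool} {g : GC A B} (hI : Inv inp g) (i : Fin n) (r : ℕ) (x : Bool)
    (hs : g.st i = .wA r x) (w : Fin n → ℕ) :
    Inv inp (⟨update g.st i (.rA r x 0 false), upd2 g.a r i (some x), g.b, g.H1, g.H2,
        update g.vs r ((g.vs r).or (some (i, x))), g.R, w⟩ : GC A B) := by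
  obtain ⟨a_rA, a_rB, b_rB, k_rB, k_rA, b_dec, a_lt, b_lt, a_wA, b_wA, b_rA, b_gt, b_s1, b_s2,
    vs_none, vs_some, rA_vs, b_val, rA_conf, b_bot, rB_bot, round_bot, rB_val, own, pair, lv_val,
    lv_bot, st1, st2, fresh1, fresh2, parts2, H_R, started, inp_wA, inp_a⟩ := hI
  constructor
  all_goals simp only [update, upd2, LW, COut, Pc, Qc, Early, Early2, eq_rec_constant, dite_eq_ite] at *
  · grind
  · grind
  · grind
  · grind
  · grind
  · grind
  · grind [rnd]
  · grind [rnd]
  · grind
  · grind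
  · grind
  · grind [rnd]
  · grind
  · grind
  · grind [Option.or_eq_none_iff]
  · intro r' z v h
    by_cases hr : r' = r
    · subst hr
      cases hv : g.vs r' with
      | none => simp [hv] at h; grind
      | some u => simp [hv] at h; grind
    · grind
  · intro j r' y k z v h h' hz
    by_cases hr : r' = r
    · subst hr
      cases hv : g.vs r' with
      | none => simp [hv] at h'; grind
      | some u => simp [hv] at h'; grind
    · grind
  · grind
  · grind
  · grind
  · grind
  · grind [rnd]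
  · grind
  · grind
  · intro p q r' h h'
    have h0 : (∃ x k v, g.st p = CSt.rB r' x k false v ∧ ↑q < k ∧ g.b r' p = some (some x)) ∨
        ∃ x, g.st p = CSt.dec r' x := by grind
    rcases pair p q r' h0 h' with ⟨x1, k, bot, v, hq, hv⟩ | ⟨y, z, hvs, hlw⟩
    · exact Or.inl ⟨x1, k, bot, v, by grind, hv⟩
    · refine Or.inr ⟨y, z, ?_, ?_⟩
      · split
        · rename_i hr; subst hr; simp [hvs]
        · exact hvs
      · grind
  · grind
  · intro r' q w' h
    have h0 : g.st q = CSt.wA (r' + 1) w' ∨ g.st q = CSt.dec r' w' ∨ g.a (r' + 1) q = some w' := by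
      grind
    rcases lv_bot r' q w' h0 with ⟨z, hz⟩ | h
    · refine Or.inl ⟨z, ?_⟩
      split
      · rename_i hr; subst hr; simp [hz]
      · exact hz
    · exact Or.inr h
  · grind
  · grind
  · grind [Early]
  · grind [Early2]
  · grind
  · grind
  · grind
  · grind
  · grind

theorem inv_rA {inp : Fin n → Bool} {g : GC A B} (hI : Inv inp g) (i : Fin n) (r : ℕ) (x : Bool)
    (k : ℕ) (c c' : Bool) (hs : g.st i = .rA r x k c) (hk : k < n)
    (hc : c' = (c || decide (g.a r ⟨k, hk⟩ = some (!x)))) (w : Fin n → ℕ) :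
    Inv inp (⟨update g.st i (.rA r x (k + 1) c'), g.a, g.b, g.H1, g.H2,
        g.vs, g.R, w⟩ : GC A B) := by
  obtain ⟨a_rA, a_rB, b_rB, k_rB, k_rA, b_dec, a_lt, b_lt, a_wA, b_wA, b_rA, b_gt, b_s1, b_s2,
    vs_none, vs_some, rA_vs, b_val, rA_conf, b_bot, rB_bot, round_bot, rB_val, own, pair, lv_val,
    lv_bot, st1, st2, fresh1, fresh2, parts2, H_R, started, inp_wA, inp_a⟩ := hI
  constructor
  all_goals simp only [update, upd2, LW, COut, Pc, Qc, Early, Early2, eq_rec_constant, dite_eq_ite] at *
  · grind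
  · grind
  · grind
  · grind
  · grind
  · grind
  · grind [rnd]
  · grind [rnd]
  · grind
  · grind
  · grind
  · grind [rnd]
  · grind
  · grind
  · grind
  · grind
  · intro j r' y k' z v h h' hz
    by_cases hj : j = i
    · subst hj
      simp only [if_true] at h
      simp only [CSt.rA.injEq] at h
      obtain ⟨h1, h2, h3, h4⟩ := h
      subst h1 h2 h3
      have hc0 : c = false ∧ ¬ g.a r ⟨k, hk⟩ = some (!x) := by
        rw [h4] at hc; simpa using hc.symm
      rcases Nat.lt_succ_iff_lt_or_eq.mp hz with h | h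
      · exact rA_vs _ _ _ _ _ _ (hc0.1 ▸ hs) h' h
      · have hz' : z = ⟨k, hk⟩ := Fin.ext h
        have := vs_some _ _ _ h'
        rw [hz'] at this
        have h5 := hc0.2
        rw [this] at h5
        cases x <;> cases v <;> first | rfl | exact absurd rfl h5
    · rw [if_neg hj] at h
      exact rA_vs _ _ _ _ _ _ h h' hz
  · grind
  · grind
  · grind
  · grind
  · grind [rnd]
  · grind
  · grind
  · intro p q r' h h'
    have h0 : (∃ x k v, g.st p = CSt.rB r' x k false v ∧ ↑q < k ∧ g.b r' p = some (some x)) ∨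
        ∃ x, g.st p = CSt.dec r' x := by grind
    rcases pair p q r' h0 h' with ⟨x1, k, bot, v, hq, hv⟩ | ⟨y, z, hvs, hlw⟩
    · exact Or.inl ⟨x1, k, bot, v, by grind, hv⟩
    · exact Or.inr ⟨y, z, hvs, by grind⟩
  · grind
  · grind
  · grind
  · grind
  · grind
  · grind
  · grind
  · grind
  · grind
  · grind
  · grind

theorem inv_wB {inp : Fin n → Bool} {g : GC A B} (hI : Inv inp g) (i : Fin n) (r : ℕ) (x : Bool)
    (k : ℕ) (c : Bool) (bv : Option Bool) (hs : g.st i = .rA r x k c) (hk : ¬ k < n)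
    (hc : bv = if c then none else some x) (w : Fin n → ℕ) :
    Inv inp (⟨update g.st i (.rB r x 0 false none), g.a, upd2 g.b r i (some bv), g.H1, g.H2,
        g.vs, g.R, w⟩ : GC A B) := by
  obtain ⟨a_rA, a_rB, b_rB, k_rB, k_rA, b_dec, a_lt, b_lt, a_wA, b_wA, b_rA, b_gt, b_s1, b_s2,
    vs_none, vs_some, rA_vs, b_val, rA_conf, b_bot, rB_bot, round_bot, rB_val, own, pair, lv_val,
    lv_bot, st1, st2, fresh1, fresh2, parts2, H_R, started, inp_wA, inp_a⟩ := hI
  have h0n : 0 < n := by have := i.isLt; omega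
  constructor
  all_goals simp only [update, upd2, LW, COut, Pc, Qc, Early, Early2, eq_rec_constant, dite_eq_ite] at *
  · grind
  · grind
  · grind
  · grind
  · grind
  · grind
  · grind [rnd]
  · grind [rnd]
  · grind
  · grind
  · grind
  · grind [rnd]
  · grind
  · grind
  · grind
  · grind
  · grind
  · intro r' j y h
    by_cases hj : r' = r ∧ j = i
    · obtain ⟨rfl, rfl⟩ := hj
      rw [if_pos ⟨rfl, rfl⟩] at h
      have hcf : c = false ∧ y = x := by grind
      obtain ⟨hc1, rfl⟩ := hcf
      have ha := a_rA _ _ _ _ _ hs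
      cases hv : g.vs r' with
      | none => have := vs_none r' j hv; rw [ha] at this; exact absurd this (by simp)
      | some u =>
        obtain ⟨z, v⟩ := u
        have := rA_vs _ _ _ _ z v (hc1 ▸ hs) hv (by have := z.isLt; omega)
        exact ⟨z, by rw [this]⟩
    · rw [if_neg hj] at h
      exact b_val _ _ _ h
  · grind
  · intro r' j h
    by_cases hj : r' = r ∧ j = i
    · obtain ⟨rfl, rfl⟩ := hj
      rw [if_pos ⟨rfl, rfl⟩] at h
      have hcf : c = true := by grind
      have ha := a_rA _ _ _ _ _ hs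
      obtain ⟨l, hl⟩ := rA_conf _ _ _ _ (hcf ▸ hs)
      cases x
      · exact ⟨⟨l, hl⟩, ⟨_, ha⟩⟩
      · exact ⟨⟨_, ha⟩, ⟨l, hl⟩⟩
    · rw [if_neg hj] at h
      exact b_bot _ _ h
  · grind
  · grind [rnd]
  · grind
  · grind
  · intro p q r' h h'
    have h0 : (∃ x k v, g.st p = CSt.rB r' x k false v ∧ ↑q < k ∧ g.b r' p = some (some x)) ∨
        ∃ x, g.st p = CSt.dec r' x := by grind
    by_cases hq : q = i
    · subst hq
      by_cases hr : r' = r
      · subst hr
        exact Or.inl ⟨x, 0, false, none, by simp, by simp⟩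
      · have hb : g.b r' q = some none := by grind
        rcases pair p q r' h0 hb with ⟨x1, k, bot, v, hq, hv⟩ | ⟨y, z, hvs, hlw⟩
        · grind
        · exact Or.inr ⟨y, z, hvs, by grind⟩
    · have hb : g.b r' q = some none := by grind
      rcases pair p q r' h0 hb with ⟨x1, k, bot, v, hq, hv⟩ | ⟨y, z, hvs, hlw⟩
      · exact Or.inl ⟨x1, k, bot, v, by grind, hv⟩
      · exact Or.inr ⟨y, z, hvs, by grind⟩
  · grind
  · grind
  · grind
  · grind
  · grind
  · grind
  · grind
  · grind
  · grind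
  · grind
  · grind

theorem updV_ne_none (w : Option (Option Bool)) (v : Option Bool) (hv : v ≠ none) :
    updV w v ≠ none := by
  unfold updV; split <;> simp_all

theorem updV_eq_some (w : Option (Option Bool)) (v : Option Bool) (y : Bool)
    (h : updV w v = some y) : w = some (some y) ∨ v = some y := by
  unfold updV at h; split at h <;> simp_all

theorem inv_rB {inp : Fin n → Bool} {g : GC A B} (hI : Inv inp g) (i : Fin n) (r : ℕ) (x : Bool)
    (k : ℕ) (bot b' : Bool) (v v' : Option Bool) (hs : g.st i = .rB r x k bot v) (hk : k < n)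
    (hk' : k + 1 < n) (hb' : b' = (bot || decide (g.b r ⟨k, hk⟩ = some none)))
    (hv' : v' = updV (g.b r ⟨k, hk⟩) v) (w : Fin n → ℕ) :
    Inv inp (⟨update g.st i (.rB r x (k + 1) b' v'), g.a, g.b, g.H1, g.H2,
        g.vs, g.R, w⟩ : GC A B) := by
  obtain ⟨a_rA, a_rB, b_rB, k_rB, k_rA, b_dec, a_lt, b_lt, a_wA, b_wA, b_rA, b_gt, b_s1, b_s2,
    vs_none, vs_some, rA_vs, b_val, rA_conf, b_bot, rB_bot, round_bot, rB_val, own, pair, lv_val,
    lv_bot, st1, st2, fresh1, fresh2, parts2, H_R, started, inp_wA, inp_a⟩ := hI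
  have hbt : b' = true → bot = true ∨ g.b r ⟨k, hk⟩ = some none := by
    intro h; rw [h] at hb'; simpa using hb'.symm
  have hbf : b' = false → bot = false ∧ g.b r ⟨k, hk⟩ ≠ some none := by
    intro h; rw [h] at hb'; simpa using hb'.symm
  have hvn : v ≠ none → v' ≠ none := by rw [hv']; exact updV_ne_none _ _
  have hvk : ∀ y, g.b r ⟨k, hk⟩ = some (some y) → v' ≠ none := by
    intro y h; rw [hv', h]; simp [updV]
  have hvs : ∀ y, v' = some y → g.b r ⟨k, hk⟩ = some (some y) ∨ v = some y := by
    intro y h; rw [hv'] at h; exact updV_eq_some _ _ _ h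
  clear hb' hv'
  constructor
  all_goals simp only [update, upd2, LW, COut, Pc, Qc, Early, Early2, eq_rec_constant, dite_eq_ite] at *
  · grind
  · grind
  · grind
  · grind
  · grind
  · grind
  · grind [rnd]
  · grind [rnd]
  · grind
  · grind
  · grind
  · grind [rnd]
  · grind
  · grind
  · grind
  · grind
  · grind
  · grind
  · grind
  · grind
  · grind
  · grind [rnd]
  · grind
  · -- own
    intro j r' x1 k1 b1 v1 h hlt
    by_cases hj : j = i
    · subst hj
      simp only [if_true, CSt.rB.injEq] at h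
      obtain ⟨rfl, rfl, rfl, rfl, rfl⟩ := h
      have h0 := own _ _ _ _ _ _ hs
      rcases Nat.lt_succ_iff_lt_or_eq.mp hlt with h | h
      · have h0 := h0 h
        refine ⟨fun hb => ?_, fun y hy => hvn (h0.2 y hy)⟩
        by_contra hb2
        have := hbf (by simpa using hb2)
        rw [h0.1 hb] at this
        exact absurd this.1 (by simp)
      · have hj' : j = ⟨k, hk⟩ := Fin.ext h
        refine ⟨fun hb => ?_, fun y hy => hvk y (hj' ▸ hy)⟩
        by_contra hb2
        exact (hbf (by simpa using hb2)).2 (hj' ▸ hb)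
    · rw [if_neg hj] at h
      exact own _ _ _ _ _ _ h hlt
  · -- pair
    intro p q r' h h'
    have hPb : ∃ y, g.b r' p = some (some y) := by
      rcases h with ⟨x1, k1, v1, _, _, h3⟩ | ⟨x1, h1⟩
      · exact ⟨x1, h3⟩
      · exact ⟨x1, b_dec p r' x1 (by grind)⟩
    have h0 : (∃ x k v, g.st p = CSt.rB r' x k false v ∧ ↑q < k ∧ g.b r' p = some (some x)) ∨
        ∃ x, g.st p = CSt.dec r' x := by
      rcases h with ⟨x1, k1, v1, h1, h2, h3⟩ | ⟨x1, h1⟩
      · by_cases hp : p = i
        · subst hp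
          simp only [if_true, CSt.rB.injEq] at h1
          obtain ⟨rfl, rfl, rfl, h4, rfl⟩ := h1
          have hbf := hbf h4
          rcases Nat.lt_succ_iff_lt_or_eq.mp h2 with h | h
          · exact Or.inl ⟨x, k, v, by rw [hs, hbf.1], h, h3⟩
          · have hq' : q = ⟨k, hk⟩ := Fin.ext h
            exact absurd (hq' ▸ h') hbf.2
        · rw [if_neg hp] at h1
          exact Or.inl ⟨x1, k1, v1, h1, h2, h3⟩
      · exact Or.inr ⟨x1, by grind⟩
    rcases pair p q r' h0 h' with ⟨x1, k1, b1, v1, hq, hv⟩ | ⟨y, z, hvs, hlw⟩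
    · by_cases hqi : q = i
      · subst hqi
        rw [hs, CSt.rB.injEq] at hq
        obtain ⟨rfl, rfl, rfl, rfl, rfl⟩ := hq
        refine Or.inl ⟨x, k + 1, b', v', by simp, fun hlt => ?_⟩
        rcases Nat.lt_succ_iff_lt_or_eq.mp hlt with h | h
        · exact hvn (hv h)
        · have hp' : p = ⟨k, hk⟩ := Fin.ext h
          obtain ⟨y, hy⟩ := hPb
          exact hvk y (hp' ▸ hy)
      · exact Or.inl ⟨x1, k1, b1, v1, by rw [if_neg hqi]; exact hq, hv⟩
    · exact Or.inr ⟨y, z, hvs, by grind⟩
  · grind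
  · grind
  · grind
  · grind
  · grind
  · grind
  · grind
  · grind
  · grind
  · grind
  · grind

theorem inv_fdec {inp : Fin n → Bool} {g : GC A B} (hI : Inv inp g) (i : Fin n) (r : ℕ) (x : Bool)
    (k : ℕ) (bot : Bool) (v : Option Bool) (hs : g.st i = .rB r x k bot v) (hk : k < n)
    (hk' : k + 1 = n) (hb' : (bot || decide (g.b r ⟨k, hk⟩ = some none)) = false)
    (w : Fin n → ℕ) :
    Inv inp (⟨update g.st i (.dec r x), g.a, g.b, g.H1, g.H2,
        g.vs, g.R, w⟩ : GC A B) := by
  obtain ⟨a_rA, a_rB, b_rB, k_rB, k_rA, b_dec, a_lt, b_lt, a_wA, b_wA, b_rA, b_gt, b_s1, b_s2,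
    vs_none, vs_some, rA_vs, b_val, rA_conf, b_bot, rB_bot, round_bot, rB_val, own, pair, lv_val,
    lv_bot, st1, st2, fresh1, fresh2, parts2, H_R, started, inp_wA, inp_a⟩ := hI
  have hbf : bot = false ∧ g.b r ⟨k, hk⟩ ≠ some none := by simpa using hb'
  have hlast : ∀ q : Fin n, q.val < k ∨ q = ⟨k, hk⟩ := by
    intro q
    have := q.isLt
    rcases Nat.lt_or_ge q.val k with h | h
    · exact Or.inl h
    · exact Or.inr (Fin.ext (by simp; omega))
  have hbi : g.b r i = some (some x) := by
    rcases b_rB _ _ _ _ _ _ hs with h | h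
    · exfalso
      rcases hlast i with h1 | h1
      · have := (own _ _ _ _ _ _ hs h1).1 h
        rw [hbf.1] at this; exact absurd this (by simp)
      · exact hbf.2 (h1 ▸ h)
    · exact h
  clear hb'
  constructor
  all_goals simp only [update, upd2, LW, COut, Pc, Qc, Early, Early2, eq_rec_constant, dite_eq_ite] at *
  · grind
  · grind
  · grind
  · grind
  · grind
  · grind
  · grind [rnd]
  · grind [rnd]
  · grind
  · grind
  · grind
  · grind [rnd]
  · grind
  · grind
  · grind
  · grind
  · grind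
  · grind
  · grind
  · grind
  · grind
  · grind [rnd]
  · grind
  · grind
  · -- pair
    intro p q r' h h'
    have h0 : (∃ x k v, g.st p = CSt.rB r' x k false v ∧ ↑q < k ∧ g.b r' p = some (some x)) ∨
        ∃ x, g.st p = CSt.dec r' x := by
      rcases h with ⟨x1, k1, v1, h1, h2, h3⟩ | ⟨x1, h1⟩
      · exact Or.inl ⟨x1, k1, v1, by grind, h2, h3⟩
      · by_cases hp : p = i
        · subst hp
          simp only [if_true, CSt.dec.injEq] at h1
          obtain ⟨rfl, rfl⟩ := h1
          rcases hlast q with h | h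
          · exact Or.inl ⟨x, k, v, by rw [hs, hbf.1], h, hbi⟩
          · exact absurd (h ▸ h') hbf.2
        · rw [if_neg hp] at h1
          exact Or.inr ⟨x1, h1⟩
    rcases pair p q r' h0 h' with ⟨x1, k1, b1, v1, hq, hv⟩ | ⟨y, z, hvs, hlw⟩
    · by_cases hqi : q = i
      · subst hqi
        rw [hs, CSt.rB.injEq] at hq
        obtain ⟨rfl, rfl, rfl, rfl, rfl⟩ := hq
        rw [hbi] at h'
        exact absurd h' (by simp)
      · exact Or.inl ⟨x1, k1, b1, v1, by rw [if_neg hqi]; exact hq, hv⟩
    · exact Or.inr ⟨y, z, hvs, by grind⟩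
  · grind
  · grind
  · grind
  · grind
  · grind
  · grind
  · grind
  · grind
  · grind
  · grind
  · grind

theorem inv_fval {inp : Fin n → Bool} {g : GC A B} (hI : Inv inp g) (i : Fin n) (r : ℕ) (x : Bool)
    (k : ℕ) (bot : Bool) (v : Option Bool) (y : Bool) (hs : g.st i = .rB r x k bot v) (hk : k < n)
    (hk' : k + 1 = n) (hb' : (bot || decide (g.b r ⟨k, hk⟩ = some none)) = true)
    (hv' : updV (g.b r ⟨k, hk⟩) v = some y)
    (w : Fin n → ℕ) :
    Inv inp (⟨update g.st i (.wA (r + 1) y), g.a, g.b, g.H1, g.H2,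
        g.vs, g.R, w⟩ : GC A B) := by
  obtain ⟨a_rA, a_rB, b_rB, k_rB, k_rA, b_dec, a_lt, b_lt, a_wA, b_wA, b_rA, b_gt, b_s1, b_s2,
    vs_none, vs_some, rA_vs, b_val, rA_conf, b_bot, rB_bot, round_bot, rB_val, own, pair, lv_val,
    lv_bot, st1, st2, fresh1, fresh2, parts2, H_R, started, inp_wA, inp_a⟩ := hI
  have hbt : ∃ j, g.b r j = some none := by
    have : bot = true ∨ g.b r ⟨k, hk⟩ = some none := by simpa using hb'
    rcases this with h | h
    · exact rB_bot _ _ _ _ _ (h ▸ hs)
    · exact ⟨_, h⟩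
  have hvs : ∃ z, g.vs r = some (z, y) := by
    rcases updV_eq_some _ _ _ hv' with h | h
    · exact b_val _ _ _ h
    · exact rB_val _ _ _ _ _ _ (h ▸ hs)
  clear hb' hv'
  constructor
  all_goals simp only [update, upd2, LW, COut, Pc, Qc, Early, Early2, eq_rec_constant, dite_eq_ite] at *
  · grind
  · grind
  · grind
  · grind
  · grind
  · grind
  · grind [rnd]
  · grind [rnd]
  · grind [rnd]
  · grind [rnd]
  · grind
  · grind [rnd]
  · grind
  · grind
  · grind
  · grind
  · grind
  · grind
  · grind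
  · grind
  · grind
  · -- round_bot
    intro j r' h
    by_cases hj : j = i
    · subst hj
      simp only [if_true, rnd] at h
      rcases Nat.lt_succ_iff_lt_or_eq.mp h with h | h
      · exact round_bot j r' (by rw [hs]; exact h)
      · exact h ▸ hbt
    · rw [if_neg hj] at h
      exact round_bot j r' h
  · grind
  · grind
  · -- pair
    intro p q r' h h'
    have h0 : (∃ x k v, g.st p = CSt.rB r' x k false v ∧ ↑q < k ∧ g.b r' p = some (some x)) ∨
        ∃ x, g.st p = CSt.dec r' x := by grind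
    rcases pair p q r' h0 h' with ⟨x1, k1, b1, v1, hq, hv⟩ | ⟨y, z, hvs, hlw⟩
    · by_cases hqi : q = i
      · subst hqi
        rw [hs, CSt.rB.injEq] at hq
        obtain ⟨rfl, rfl, rfl, rfl, rfl⟩ := hq
        obtain ⟨z, hz⟩ := hvs
        exact Or.inr ⟨y, z, hz, Or.inl (by simp)⟩
      · exact Or.inl ⟨x1, k1, b1, v1, by rw [if_neg hqi]; exact hq, hv⟩
    · exact Or.inr ⟨y, z, hvs, by grind⟩
  · -- lv_val
    intro r' q w' y' h h'
    by_cases hq : q = i
    · subst hq
      simp only [if_true, CSt.wA.injEq] at h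
      rcases h with ⟨h1, h2⟩ | h | h
      · have hr : r' = r := by omega
        subst hr
        obtain ⟨z, hz⟩ := hvs
        obtain ⟨z', hz'⟩ := b_val _ _ _ h'
        rw [hz] at hz'
        simp only [Option.some.injEq, Prod.mk.injEq] at hz'
        rw [← h2, hz'.2]
      · exact absurd h (by simp)
      · exact lv_val r' q w' y' (Or.inr (Or.inr h)) h'
    · rw [if_neg hq] at h
      exact lv_val r' q w' y' h h'
  · -- lv_bot
    intro r' q w' h
    by_cases hq : q = i
    · subst hq
      simp only [if_true, CSt.wA.injEq] at h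
      rcases h with ⟨h1, h2⟩ | h | h
      · have hr : r' = r := by omega
        subst hr
        exact Or.inl (h2 ▸ hvs)
      · exact absurd h (by simp)
      · exact lv_bot r' q w' (Or.inr (Or.inr h))
    · rw [if_neg hq] at h
      exact lv_bot r' q w' h
  · grind
  · grind
  · grind
  · grind
  · grind
  · grind
  · grind
  · grind
  · grind

end RC.Cons
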