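import Pool.Agent.H27.RC.Inv1

/-!
# The invariants of the consensus protocol are preserved by every step (part 2: the coin)
-/

namespace RC.Cons

open Function

variable {n : ℕ} {A : Sub n (Option Bool)} {B : Sub n Bool}

theorem inv_coin {inp : Fin n → Bool} {g : GC A B} (hI : Inv inp g) (i : Fin n) (coin : Bool)
    (r : ℕ) (t : CSt A.S B.S) (h1 h2 : ℕ → List (Fin n × Bool)) (hCS : CS h1 h2 r i t)
    (old : (∃ x k bot v, ∃ hk : k < n, g.st i = .rB r x k bot v ∧ k + 1 = n ∧
          (bot || decide (g.b r ⟨k, hk⟩ = some none)) = true ∧ updV (g.b r ⟨k, hk⟩) v = none ∧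
          h1 = g.H1 ∧ h2 = g.H2) ∨
        (∃ s, g.st i = .s1 r s ∧ h1 = update g.H1 r (g.H1 r ++ [(i, coin)]) ∧ h2 = g.H2) ∨
        ∃ s, g.st i = .s2 r s ∧ h1 = g.H1 ∧ h2 = update g.H2 r (g.H2 r ++ [(i, coin)]))
    (w : Fin n → ℕ) :
    Inv inp (⟨update g.st i t, g.a, g.b, h1, h2, g.vs, max g.R (r + 1), w⟩ : GC A B) := by
  obtain ⟨a_rA, a_rB, b_rB, k_rB, k_rA, b_dec, a_lt, b_lt, a_wA, b_wA, b_rA, b_gt, b_s1, b_s2,
    vs_none, vs_some, rA_vs, b_val, rA_conf, b_bot, rB_bot, round_bot, rB_val, own, pair, lv_val,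
    lv_bot, st1, st2, fresh1, fresh2, parts2, H_R, started, inp_wA, inp_a⟩ := hI
  -- facts on the old configuration
  have hrnd : rnd (g.st i) = r := by
    rcases old with ⟨x, k, bot, v, hk, h, _⟩ | ⟨s, h, _⟩ | ⟨s, h, _⟩ <;> rw [h] <;> rfl
  have haR : g.a (r + 1) i = none := a_lt i (r + 1) (by omega)
  have hb : g.b r i = some none := by
    rcases old with ⟨x, k, bot, v, hk, h, hk', _, hv, _⟩ | ⟨s, h, _⟩ | ⟨s, h, _⟩
    · rcases b_rB _ _ _ _ _ _ h with h0 | h0
      · exact h0
      · exfalso
        rcases Nat.lt_or_ge i.val k with h3 | h3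
        · exact updV_ne_none _ _ ((own _ _ _ _ _ _ h h3).2 _ h0) hv
        · have : i = ⟨k, hk⟩ := Fin.ext (by have := i.isLt; simp; omega)
          rw [← this, h0] at hv
          simp [updV] at hv
    · exact b_s1 _ _ _ h
    · exact b_s2 _ _ _ h
  have hnoLW : ∀ y, ¬ LW g r i y := by
    intro y h
    rcases h with h | h | h
    · rw [h] at hrnd; simp [rnd] at hrnd
    · rcases old with ⟨x, k, bot, v, hk, h', _⟩ | ⟨s, h', _⟩ | ⟨s, h', _⟩ <;>
        rw [h] at h' <;> exact absurd h' (by simp)
    · rw [haR] at h; exact absurd h (by simp)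
  have hnoPc : ∀ p, ¬ Pc g p r i := by
    intro p hp
    have hpb : ∃ y, g.b r p = some (some y) := by
      rcases hp with ⟨x1, k1, v1, _, _, h3⟩ | ⟨x1, h1⟩
      · exact ⟨x1, h3⟩
      · exact ⟨x1, b_dec p r x1 h1⟩
    rcases pair p i r hp hb with ⟨x1, k1, b1, v1, hq, hv1⟩ | ⟨y, z, hvs, hlw⟩
    · rcases old with ⟨x, k, bot, v, hk, h, hk', _, hv, _⟩ | ⟨s, h, _⟩ | ⟨s, h, _⟩
      · rw [h, CSt.rB.injEq] at hq
        obtain ⟨-, rfl, rfl, rfl, rfl⟩ := hq
        rcases Nat.lt_or_ge p.val k with h3 | h3
        · exact updV_ne_none _ _ (hv1 h3) hv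
        · have : p = ⟨k, hk⟩ := Fin.ext (by have := p.isLt; simp; omega)
          obtain ⟨y, hy⟩ := hpb
          rw [← this, hy] at hv
          simp [updV] at hv
      · rw [h] at hq; exact absurd hq (by simp)
      · rw [h] at hq; exact absurd hq (by simp)
    · exact hnoLW y hlw
  have hbt : ∃ j, g.b r j = some none := ⟨i, hb⟩
  have hst1 : ∀ j r', (j ≠ i ∨ r' ≠ r) → (A.cfg (h1 r')).st j = (A.cfg (g.H1 r')).st j := by
    intro j r' h
    rcases old with ⟨x, k, bot, v, hk, _, _, _, _, e1, e2⟩ | ⟨s, _, e1, e2⟩ | ⟨s, _, e1, e2⟩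
    · rw [e1]
    · rw [e1]
      by_cases hr : r' = r
      · subst hr
        rw [update_self]
        exact cfg_st_ne A _ _ _ (by tauto)
      · rw [update_of_ne hr]
    · rw [e1]
  have hst2 : ∀ j r', (j ≠ i ∨ r' ≠ r) → (B.cfg (h2 r')).st j = (B.cfg (g.H2 r')).st j := by
    intro j r' h
    rcases old with ⟨x, k, bot, v, hk, _, _, _, _, e1, e2⟩ | ⟨s, _, e1, e2⟩ | ⟨s, _, e1, e2⟩
    · rw [e2]
    · rw [e2]
    · rw [e2]
      by_cases hr : r' = r
      · subst hr
        rw [update_self]
        exact cfg_st_ne B _ _ _ (by tauto)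
      · rw [update_of_ne hr]
  have hst1' : (¬ ∃ s, g.st i = .s1 r s) → h1 = g.H1 := by
    intro h
    rcases old with ⟨x, k, bot, v, hk, _, _, _, _, e1, e2⟩ | ⟨s, hs, e1, e2⟩ | ⟨s, _, e1, e2⟩
    · exact e1
    · exact absurd ⟨s, hs⟩ h
    · exact e1
  have hst2' : (¬ ∃ s, g.st i = .s2 r s) → h2 = g.H2 := by
    intro h
    rcases old with ⟨x, k, bot, v, hk, _, _, _, _, e1, e2⟩ | ⟨s, _, e1, e2⟩ | ⟨s, hs, e1, e2⟩
    · exact e2
    · exact e2
    · exact absurd ⟨s, hs⟩ h
  have hparts : ∀ j r', j ∈ parts (h2 r') → j ∈ parts (g.H2 r') ∨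
      (j = i ∧ r' = r ∧ ∃ s, g.st i = .s2 r s) := by
    intro j r' h
    rcases old with ⟨x, k, bot, v, hk, _, _, _, _, e1, e2⟩ | ⟨s, _, e1, e2⟩ | ⟨s, hs, e1, e2⟩
    · rw [e2] at h; exact Or.inl h
    · rw [e2] at h; exact Or.inl h
    · rw [e2] at h
      by_cases hr : r' = r
      · subst hr
        rw [update_self] at h
        simp only [parts, List.map_append, List.map_cons, List.map_nil, List.mem_toFinset,
          List.mem_append, List.mem_singleton] at h
        rcases h with h | h
        · exact Or.inl (by simpa only [parts, List.mem_toFinset] using h)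
        · exact Or.inr ⟨h, rfl, s, hs⟩
      · rw [update_of_ne hr] at h; exact Or.inl h
  have hHR : ∀ r', max g.R (r + 1) ≤ r' → h1 r' = [] ∧ h2 r' = [] := by
    intro r' h
    have hr : r' ≠ r := by omega
    have h0 := H_R r' (by omega)
    rcases old with ⟨x, k, bot, v, hk, _, _, _, _, e1, e2⟩ | ⟨s, _, e1, e2⟩ | ⟨s, hs, e1, e2⟩
    · rw [e1, e2]; exact h0
    · rw [e1, e2, update_of_ne hr]; exact h0
    · rw [e1, e2, update_of_ne hr]; exact h0
  have hnoB : ∀ r x k bot v, t ≠ .rB r x k bot v := by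
    rcases hCS with ⟨w', e, _⟩ | ⟨e, _⟩ | ⟨e, _⟩ <;> rw [e] <;> simp
  have hnoA : ∀ r x k c, t ≠ .rA r x k c := by
    rcases hCS with ⟨w', e, _⟩ | ⟨e, _⟩ | ⟨e, _⟩ <;> rw [e] <;> simp
  have htr : rnd t = r ∨ ∃ y, t = .wA (r + 1) y := by
    rcases hCS with ⟨w', e, _⟩ | ⟨e, _⟩ | ⟨e, _⟩
    · exact Or.inr ⟨w', e⟩
    · rw [e]; exact Or.inl rfl
    · rw [e]; exact Or.inl rfl
  have htk : (∃ y, t = .wA (r + 1) y) ∨ (∃ s, t = .s1 r s) ∨ (∃ s, t = .s2 r s) := by
    rcases hCS with ⟨w', e, _⟩ | ⟨e, _⟩ | ⟨e, _⟩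
    · exact Or.inl ⟨_, e⟩
    · exact Or.inr (Or.inl ⟨_, e⟩)
    · exact Or.inr (Or.inr ⟨_, e⟩)
  constructor
  · intro j r' y k c h; simp only [update, eq_rec_constant, dite_eq_ite] at h ⊢; grind
  · intro j r' y k bot v h; simp only [update, eq_rec_constant, dite_eq_ite] at h ⊢; grind
  · intro j r' y k bot v h; simp only [update, eq_rec_constant, dite_eq_ite] at h ⊢; grind
  · intro j r' y k bot v h; simp only [update, eq_rec_constant, dite_eq_ite] at h ⊢; grind
  · intro j r' y k c h; simp only [update, eq_rec_constant, dite_eq_ite] at h ⊢; grind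
  · intro j r' y h; simp only [update, eq_rec_constant, dite_eq_ite] at h ⊢; grind
  · intro j r' h; simp only [update, eq_rec_constant, dite_eq_ite] at h ⊢; grind [rnd]
  · intro j r' h; simp only [update, eq_rec_constant, dite_eq_ite] at h ⊢; grind [rnd]
  · intro j r' y h; simp only [update, eq_rec_constant, dite_eq_ite] at h ⊢; grind [rnd]
  · intro j r' y h; simp only [update, eq_rec_constant, dite_eq_ite] at h ⊢; grind [rnd]
  · intro j r' y k c h; simp only [update, eq_rec_constant, dite_eq_ite] at h ⊢; grind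
  · -- b_gt
    intro j r' h
    by_cases hj : j = i
    · subst hj
      simp only [update_self] at h
      rcases htr with h3 | ⟨y, h3⟩
      · exact b_gt j r' (by rw [hrnd, ← h3]; exact h)
      · rw [h3] at h
        simp only [rnd] at h
        rcases Nat.lt_succ_iff_lt_or_eq.mp h with h | h
        · exact b_gt j r' (by rw [hrnd]; exact h)
        · rw [h, hb]; simp
    · simp only [update_of_ne hj] at h; exact b_gt j r' h
  · intro j r' s h; simp only [update, eq_rec_constant, dite_eq_ite] at h ⊢; grind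
  · intro j r' s h; simp only [update, eq_rec_constant, dite_eq_ite] at h ⊢; grind
  · exact vs_none
  · exact vs_some
  · intro j r' y k z v h h' hz
    by_cases hj : j = i
    · subst hj; simp only [update_self] at h; exact absurd h (hnoA _ _ _ _)
    · simp only [update_of_ne hj] at h; exact rA_vs _ _ _ _ _ _ h h' hz
  · exact b_val
  · intro j r' y k h
    by_cases hj : j = i
    · subst hj; simp only [update_self] at h; exact absurd h (hnoA _ _ _ _)
    · simp only [update_of_ne hj] at h; exact rA_conf _ _ _ _ h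
  · exact b_bot
  · intro j r' y k v h
    by_cases hj : j = i
    · subst hj; simp only [update_self] at h; exact absurd h (hnoB _ _ _ _ _)
    · simp only [update_of_ne hj] at h; exact rB_bot _ _ _ _ _ h
  · -- round_bot
    intro j r' h
    by_cases hj : j = i
    · subst hj
      simp only [update_self] at h
      rcases htr with h3 | ⟨y, h3⟩
      · exact round_bot j r' (by rw [hrnd, ← h3]; exact h)
      · rw [h3] at h
        simp only [rnd] at h
        rcases Nat.lt_succ_iff_lt_or_eq.mp h with h | h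
        · exact round_bot j r' (by rw [hrnd]; exact h)
        · rw [h]; exact hbt
    · simp only [update_of_ne hj] at h; exact round_bot j r' h
  · intro j r' y k bot v h
    by_cases hj : j = i
    · subst hj; simp only [update_self] at h; exact absurd h (hnoB _ _ _ _ _)
    · simp only [update_of_ne hj] at h; exact rB_val _ _ _ _ _ _ h
  · intro j r' y k bot v h hlt
    by_cases hj : j = i
    · subst hj; simp only [update_self] at h; exact absurd h (hnoB _ _ _ _ _)
    · simp only [update_of_ne hj] at h; exact own _ _ _ _ _ _ h hlt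
  · -- pair
    intro p q r' h h'
    have h0 : Pc g p r' q := by
      unfold Pc at h ⊢
      simp only [update, eq_rec_constant, dite_eq_ite] at h
      grind
    by_cases hq : q = i ∧ r' = r
    · obtain ⟨rfl, rfl⟩ := hq
      exact absurd h0 (hnoPc p)
    · rcases pair p q r' h0 h' with ⟨x1, k1, b1, v1, hq1, hv1⟩ | ⟨y, z, hvs, hlw⟩
      · by_cases hqi : q = i
        · subst hqi
          rw [hq1] at hrnd
          exact absurd ⟨rfl, hrnd⟩ hq
        · exact Or.inl ⟨x1, k1, b1, v1, by simp only [update_of_ne hqi]; exact hq1, hv1⟩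
      · refine Or.inr ⟨y, z, hvs, ?_⟩
        unfold LW at hlw ⊢
        simp only [update, eq_rec_constant, dite_eq_ite]
        by_cases hqi : q = i
        · subst hqi
          rcases hlw with h | h | h
          · rw [h] at hrnd; simp only [rnd] at hrnd
            exfalso
            rcases old with ⟨x, k, bot, v, hk, h4, _⟩ | ⟨s, h4, _⟩ | ⟨s, h4, _⟩ <;>
              rw [h] at h4 <;> exact absurd h4 (by simp)
          · exfalso
            rcases old with ⟨x, k, bot, v, hk, h4, _⟩ | ⟨s, h4, _⟩ | ⟨s, h4, _⟩ <;>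
              rw [h] at h4 <;> exact absurd h4 (by simp)
          · exact Or.inr (Or.inr h)
        · simp only [if_neg hqi]; exact hlw
  · -- lv_val
    intro r' q w' y h h'
    unfold LW at h
    simp only [update, eq_rec_constant, dite_eq_ite] at h
    by_cases hqi : q = i
    · subst hqi
      simp only [if_true] at h
      rcases h with h | h | h
      · have hr : r' = r := by
          rcases htk with ⟨y1, e⟩ | ⟨s, e⟩ | ⟨s, e⟩ <;> rw [e] at h
          · simp only [CSt.wA.injEq] at h; omega
          · exact absurd h (by simp)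
          · exact absurd h (by simp)
        subst hr
        rw [hb] at h'; exact absurd h' (by simp)
      · exfalso
        rcases htk with ⟨y1, e⟩ | ⟨s, e⟩ | ⟨s, e⟩ <;> rw [e] at h <;> exact absurd h (by simp)
      · exact lv_val r' q w' y (Or.inr (Or.inr h)) h'
    · simp only [if_neg hqi] at h
      exact lv_val r' q w' y h h'
  · -- lv_bot
    intro r' q w' h
    unfold LW at h
    simp only [update, eq_rec_constant, dite_eq_ite] at h
    have key : LW g r' q w' → ¬ (q = i ∧ r' = r) → (∃ z, g.vs r' = some (z, w')) ∨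
        (r' < max g.R (r + 1) ∧ (A.act q ((A.cfg (h1 r')).st q) = .out (some w') ∨
          (A.act q ((A.cfg (h1 r')).st q) = .out none ∧
            B.act q ((B.cfg (h2 r')).st q) = .out w'))) := by
      intro hl hne
      rcases lv_bot r' q w' hl with h | ⟨h, h'⟩
      · exact Or.inl h
      · refine Or.inr ⟨lt_of_lt_of_le h (le_max_left _ _), ?_⟩
        rw [hst1 q r' (by tauto), hst2 q r' (by tauto)]
        exact h'
    by_cases hqi : q = i
    · subst hqi
      simp only [if_true] at h
      rcases h with h | h | h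
      · rcases hCS with ⟨y1, e, h5⟩ | ⟨e, _⟩ | ⟨e, _⟩
        · rw [e] at h
          simp only [CSt.wA.injEq] at h
          have hr : r' = r := by omega
          subst hr
          refine Or.inr ⟨lt_of_lt_of_le (Nat.lt_succ_self _) (le_max_right _ _), ?_⟩
          rw [← h.2]
          exact h5
        · rw [e] at h; exact absurd h (by simp)
        · rw [e] at h; exact absurd h (by simp)
      · exfalso
        rcases htk with ⟨y1, e⟩ | ⟨s, e⟩ | ⟨s, e⟩ <;> rw [e] at h <;> exact absurd h (by simp)
      · refine key (Or.inr (Or.inr h)) ?_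
        rintro ⟨-, rfl⟩
        rw [haR] at h; exact absurd h (by simp)
    · simp only [if_neg hqi] at h
      exact key h (by tauto)
  · -- st1
    intro j r' s h
    by_cases hj : j = i
    · subst hj
      simp only [update_self] at h ⊢
      rcases hCS with ⟨y1, e, h5⟩ | ⟨e, h5⟩ | ⟨e, h5⟩
      · rw [e] at h; exact absurd h (by simp)
      · rw [e] at h
        simp only [CSt.s1.injEq] at h
        obtain ⟨rfl, rfl⟩ := h
        exact ⟨rfl, h5, lt_of_lt_of_le (Nat.lt_succ_self _) (le_max_right _ _)⟩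
      · rw [e] at h; exact absurd h (by simp)
    · simp only [update_of_ne hj] at h
      have := st1 j r' s h
      refine ⟨?_, this.2.1, lt_of_lt_of_le this.2.2 (le_max_left _ _)⟩
      show s = (A.cfg (h1 r')).st j
      rw [hst1 j r' (Or.inl hj)]; exact this.1
  · -- st2
    intro j r' s h
    by_cases hj : j = i
    · subst hj
      simp only [update_self] at h ⊢
      rcases hCS with ⟨y1, e, h5⟩ | ⟨e, h5⟩ | ⟨e, h5, h6⟩
      · rw [e] at h; exact absurd h (by simp)
      · rw [e] at h; exact absurd h (by simp)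
      · rw [e] at h
        simp only [CSt.s2.injEq] at h
        obtain ⟨rfl, rfl⟩ := h
        exact ⟨rfl, h6, h5, lt_of_lt_of_le (Nat.lt_succ_self _) (le_max_right _ _)⟩
    · simp only [update_of_ne hj] at h
      have := st2 j r' s h
      refine ⟨?_, this.2.1, ?_, lt_of_lt_of_le this.2.2.2 (le_max_left _ _)⟩
      · show s = (B.cfg (h2 r')).st j
        rw [hst2 j r' (Or.inl hj)]; exact this.1
      · show A.act j ((A.cfg (h1 r')).st j) = _
        rw [hst1 j r' (Or.inl hj)]; exact this.2.2.1
  · -- fresh1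
    intro j r' h
    show (A.cfg (h1 r')).st j = A.s0
    by_cases hj : j = i
    · subst hj
      simp only [update_self] at h
      have hlt : r < r' := by
        rcases htk with ⟨y1, e⟩ | ⟨s, e⟩ | ⟨s, e⟩ <;> rw [e] at h <;> simp only [Early] at h <;> omega
      rw [hst1 j r' (Or.inr (by omega))]
      refine fresh1 j r' ?_
      rcases old with ⟨x, k, bot, v, hk, h', _⟩ | ⟨s, h', _⟩ | ⟨s, h', _⟩ <;> rw [h'] <;>
        simp only [Early] <;> omega
    · simp only [update_of_ne hj] at h
      rw [hst1 j r' (Or.inl hj)]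
      exact fresh1 j r' h
  · -- fresh2
    intro j r' h
    show (B.cfg (h2 r')).st j = B.s0 ∧ j ∉ parts (h2 r')
    by_cases hj : j = i
    · subst hj
      simp only [update_self] at h
      have hold : Early2 (g.st j) r' ∧ ¬ (r' = r ∧ ∃ s, g.st j = .s2 r s) := by
        rcases old with ⟨x, k, bot, v, hk, h', _⟩ | ⟨s, h', _⟩ | ⟨s, h', e1, e2⟩
        · rw [h']
          rcases htk with ⟨y1, e⟩ | ⟨s, e⟩ | ⟨s, e⟩ <;> rw [e] at h <;>
            simp only [Early2] at h ⊢ <;> refine ⟨by omega, by simp⟩
        · rw [h']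
          rcases htk with ⟨y1, e⟩ | ⟨s, e⟩ | ⟨s, e⟩ <;> rw [e] at h <;>
            simp only [Early2] at h ⊢ <;> refine ⟨by omega, by simp⟩
        · have hne : ∀ s', t ≠ .s1 r s' := by
            intro s' e
            rcases hCS with ⟨y1, e', h5⟩ | ⟨e', h5⟩ | ⟨e', h5⟩
            · rw [e] at e'; exact absurd e' (by simp)
            · have := st2 _ _ _ h'
              rw [e1] at h5
              exact h5 _ this.2.2.1
            · rw [e] at e'; exact absurd e' (by simp)
          rw [h']
          rcases htk with ⟨y1, e⟩ | ⟨s, e⟩ | ⟨s, e⟩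
          · rw [e] at h
            simp only [Early2] at h ⊢
            exact ⟨by omega, fun h => by omega⟩
          · exact absurd e (hne _)
          · rw [e] at h
            simp only [Early2] at h ⊢
            exact ⟨by omega, fun h => by omega⟩
      have hf := fresh2 j r' hold.1
      refine ⟨?_, ?_⟩
      · by_cases hr : r' = r
        · have := hst2' (fun h => hold.2 ⟨hr, h⟩)
          rw [this]; exact hf.1
        · rw [hst2 j r' (Or.inr hr)]; exact hf.1
      · intro hm
        rcases hparts j r' hm with h | ⟨_, h3, h4⟩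
        · exact hf.2 h
        · exact hold.2 ⟨h3, h4⟩
    · simp only [update_of_ne hj] at h
      have hf := fresh2 j r' h
      refine ⟨?_, ?_⟩
      · rw [hst2 j r' (Or.inl hj)]; exact hf.1
      · intro hm
        rcases hparts j r' hm with h | ⟨h3, _⟩
        · exact hf.2 h
        · exact hj h3
  · -- parts2
    intro j r' h
    show A.act j ((A.cfg (h1 r')).st j) = _
    rcases hparts j r' h with h0 | ⟨h3, h4, s, h5⟩
    · have hp := parts2 j r' h0
      by_cases hj : j = i ∧ r' = r
      · obtain ⟨rfl, rfl⟩ := hj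
        rcases old with ⟨x, k, bot, v, hk, _, _, _, _, e1, e2⟩ | ⟨s, h', e1, e2⟩ | ⟨s, _, e1, e2⟩
        · rw [e1]; exact hp
        · exact absurd h0 (fresh2 j r' (by rw [h']; exact le_refl _)).2
        · rw [e1]; exact hp
      · rw [hst1 j r' (by tauto)]; exact hp
    · subst h3 h4
      have : h1 = g.H1 := hst1' (by rw [h5]; simp)
      rw [this]
      exact (st2 _ _ _ h5).2.2.1
  · exact hHR
  · -- started
    intro r' h
    show ∃ j, g.b r' j = some none
    rcases lt_max_iff.mp h with h | h
    · exact started r' h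
    · rcases Nat.lt_succ_iff_lt_or_eq.mp h with h | h
      · exact round_bot i r' (by rw [hrnd]; exact h)
      · rw [h]; exact hbt
  · intro j y h; simp only [update, eq_rec_constant, dite_eq_ite] at h ⊢; grind
  · exact inp_a

theorem inv_gstep {inp : Fin n → Bool} {g : GC A B} (hg : Inv inp g) (i : Fin n) (coin : Bool) :
    Inv inp (gstep g i coin) := by
  rcases gstep_ev hg i coin with ⟨r, x, hs, e⟩ | ⟨r, x, k, c, hs, hk, e⟩ | ⟨r, x, k, c, hs, hk, e⟩ |
    ⟨r, x, k, bot, v, hs, hk, hk', e⟩ | ⟨r, x, k, bot, v, hs, hk, hk', hb, e⟩ |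
    ⟨r, x, k, bot, v, y, hs, hk, hk', hb, hv, e⟩ | ⟨r, t, h1, h2, hCS, old, e⟩ | ⟨r, x, hs, e⟩
  · rw [e]; exact inv_wA hg i r x hs _
  · rw [e]; exact inv_rA hg i r x k c _ hs hk rfl _
  · rw [e]; exact inv_wB hg i r x k c _ hs hk rfl _
  · rw [e]; exact inv_rB hg i r x k bot _ v _ hs hk hk' rfl rfl _
  · rw [e]; exact inv_fdec hg i r x k bot v hs hk hk' hb _
  · rw [e]; exact inv_fval hg i r x k bot v y hs hk hk' hb hv _
  · rw [e]; exact inv_coin hg i coin r t h1 h2 hCS old _
  · rw [e]; exact hg

theorem inv_init (inp : Fin n → Bool) : Inv inp (ginit A B inp) := by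
  constructor
  all_goals simp only [ginit, LW, Pc, Qc, COut, Early, Early2, rnd, parts, Sub.cfg_nil, Sub.init]
  all_goals simp
  all_goals grind

theorem inv_ghost (inp : Fin n → Bool) (h : List (Event n)) : Inv inp (ghost A B inp h) := by
  induction h using List.reverseRecOn with
  | nil => exact inv_init inp
  | append_singleton h e ih => rw [ghost_snoc]; exact inv_gstep ih _ _

end RC.Cons
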