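import Pool.Agent.H27.RC.Inv2

/-!
# Agreement, validity, and the relation between ghost and real configurations
-/

namespace RC.Cons

open Function

variable {n : ℕ} {A : Sub n (Option Bool)} {B : Sub n Bool}

theorem config_ext {P : Protocol n} {c c' : Config P} (h1 : c.st = c'.st)
    (h2 : ∀ q, c.mem q = c'.mem q) : c = c' := by
  cases c; cases c'
  simp only [Config.mk.injEq]
  exact ⟨h1, funext h2⟩

section Steps

variable {P : Protocol n} {c : Config P} {i : Fin n} {b : Bool}

theorem pstep_read {r : P.Reg} {next : P.Val → P.St} (h : P.act i (c.st i) = .read r next) :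
    P.step c i b = { c with st := update c.st i (next (c.mem r)) } := by
  unfold Protocol.step; rw [h]

theorem pstep_flip {next : Bool → P.St} (h : P.act i (c.st i) = .flip next) :
    P.step c i b = { c with st := update c.st i (next b) } := by
  unfold Protocol.step; rw [h]

theorem pstep_decide {x : Bool} (h : P.act i (c.st i) = .decide x) : P.step c i b = c := by
  unfold Protocol.step; rw [h]

theorem pstep_write_st {r : P.Reg} {own : P.owner r = i} {v : P.Val} {next : P.St}
    (h : P.act i (c.st i) = .write r own v next) :
    (P.step c i b).st = update c.st i next := by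
  unfold Protocol.step; rw [h]

theorem pstep_write_mem {r : P.Reg} {own : P.owner r = i} {v : P.Val} {next : P.St}
    (h : P.act i (c.st i) = .write r own v next) (q : P.Reg) :
    (q = r → (P.step c i b).mem q = v) ∧ (q ≠ r → (P.step c i b).mem q = c.mem q) := by
  classical
  unfold Protocol.step; rw [h]
  constructor
  · intro hq; subst hq; simp
  · intro hq; simp [hq]

end Steps

theorem conf_gstep {inp : Fin n → Bool} {g : GC A B} (hg : Inv inp g) (i : Fin n) (coin : Bool) :
    conf (gstep g i coin) = (proto A B).step (conf g) i coin := by
  cases hs : g.st i with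
  | wA r x =>
    have e : (proto A B).act i ((conf g).st i) =
        .write (r, .regA, i) rfl ⟨some x, none, A.v0, B.v0⟩ (.rA r x 0 false) := by
      show cact A B i (g.st i) = _
      rw [hs]; rfl
    apply config_ext
    · rw [pstep_write_st e]; simp only [gstep, hs, conf]; rfl
    · intro q
      obtain ⟨hq1, hq2⟩ := pstep_write_mem (b := coin) e q
      rcases eq_or_ne q (r, Kind.regA, i) with h | h
      · rw [hq1 h, h]; simp [gstep, hs, conf, upd2] <;> rfl
      · rw [hq2 h]
        obtain ⟨r', κ, j⟩ := q
        cases κ with
        | regA =>
          have : ¬ (r' = r ∧ j = i) := by rintro ⟨rfl, rfl⟩; exact h rfl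
          simp [gstep, hs, conf, upd2, this] <;> rfl
        | _ => simp [gstep, hs, conf] <;> rfl
  | rA r x k c =>
    by_cases hk : k < n
    · have e : (proto A B).act i ((conf g).st i) =
          .read (r, .regA, ⟨k, hk⟩)
            (fun v => .rA r x (k + 1) (c || decide (v.a = some (!x)))) := by
        show cact A B i (g.st i) = _
        rw [hs]; simp only [cact, hk, dite_true]; rfl
      rw [pstep_read e]
      apply config_ext
      · simp only [gstep, hs, conf, hk, dite_true]; rfl
      · intro q; simp only [gstep, hs, conf, hk, dite_true]
    · have e : (proto A B).act i ((conf g).st i) =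
          .write (r, .regB, i) rfl ⟨none, some (if c then none else some x), A.v0, B.v0⟩
            (.rB r x 0 false none) := by
        show cact A B i (g.st i) = _
        rw [hs]; simp only [cact, hk, dite_false]; rfl
      apply config_ext
      · rw [pstep_write_st e]; simp only [gstep, hs, conf, hk, dite_false]; rfl
      · intro q
        obtain ⟨hq1, hq2⟩ := pstep_write_mem (b := coin) e q
        rcases eq_or_ne q (r, Kind.regB, i) with h | h
        · rw [hq1 h, h]; simp [gstep, hs, hk, conf, upd2] <;> rfl
        · rw [hq2 h]
          obtain ⟨r', κ, j⟩ := q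
          cases κ with
          | regB =>
            have : ¬ (r' = r ∧ j = i) := by rintro ⟨rfl, rfl⟩; exact h rfl
            simp [gstep, hs, hk, conf, upd2, this] <;> rfl
          | _ => simp [gstep, hs, hk, conf] <;> rfl
  | rB r x k bot v =>
    have hk := hg.k_rB i r x k bot v hs
    have e : (proto A B).act i ((conf g).st i) =
        .read (r, .regB, ⟨k, hk⟩)
          (fun w => finB A B i r x (k + 1) (bot || decide (w.b = some none)) (updV w.b v)) := by
      show cact A B i (g.st i) = _
      rw [hs]; simp only [cact, hk, dite_true]; rfl
    rw [pstep_read e]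
    apply config_ext
    · simp only [gstep, hs, conf, hk, dite_true]; rfl
    · intro q; simp only [gstep, hs, conf, hk, dite_true]
  | s1 r s =>
    obtain ⟨hst, hno, hlt⟩ := hg.st1 i r s hs
    cases ha : A.act i s with
    | read j next =>
      have e : (proto A B).act i ((conf g).st i) =
          .read (r, .coin1, j) (fun v => norm1 A B i r (next v.m1)) := by
        show cact A B i (g.st i) = _
        rw [hs]; simp only [cact, ha]; rfl
      have hs1 : (A.cfg (g.H1 r ++ [(i, coin)])).st i = next ((A.cfg (g.H1 r)).mem j) := by
        rw [Sub.cfg_snoc]; unfold Sub.step; simp only; rw [← hst, ha]; simp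
      have hs2 : (A.cfg (g.H1 r ++ [(i, coin)])).mem = (A.cfg (g.H1 r)).mem := by
        rw [Sub.cfg_snoc]; unfold Sub.step; simp only; rw [← hst, ha]
      rw [pstep_read e]
      apply config_ext
      · simp only [gstep, hs, conf, hs1]; rfl
      · intro q
        obtain ⟨r', κ, j'⟩ := q
        cases κ with
        | coin1 =>
          by_cases hr : r' = r
          · subst hr; simp [gstep, hs, conf, hs2] <;> rfl
          · simp [gstep, hs, conf, hr] <;> rfl
        | _ => simp [gstep, hs, conf] <;> rfl
    | write v next =>
      have e : (proto A B).act i ((conf g).st i) =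
          .write (r, .coin1, i) rfl ⟨none, none, v, B.v0⟩ (norm1 A B i r next) := by
        show cact A B i (g.st i) = _
        rw [hs]; simp only [cact, ha]; rfl
      have hs1 : (A.cfg (g.H1 r ++ [(i, coin)])).st i = next := by
        rw [Sub.cfg_snoc]; unfold Sub.step; simp only; rw [← hst, ha]; simp
      have hs2 : (A.cfg (g.H1 r ++ [(i, coin)])).mem = update (A.cfg (g.H1 r)).mem i v := by
        rw [Sub.cfg_snoc]; unfold Sub.step; simp only; rw [← hst, ha]
      apply config_ext
      · rw [pstep_write_st e]; simp only [gstep, hs, conf, hs1]; rfl
      · intro q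
        obtain ⟨hq1, hq2⟩ := pstep_write_mem (b := coin) e q
        rcases eq_or_ne q (r, Kind.coin1, i) with h | h
        · rw [hq1 h, h]; simp [gstep, hs, conf, hs2] <;> rfl
        · rw [hq2 h]
          obtain ⟨r', κ, j'⟩ := q
          cases κ with
          | coin1 =>
            by_cases hr : r' = r
            · subst hr
              have hj : j' ≠ i := by rintro rfl; exact h rfl
              simp [gstep, hs, conf, hs2, hj] <;> rfl
            · simp [gstep, hs, conf, hr] <;> rfl
          | _ => simp [gstep, hs, conf] <;> rfl
    | flip next =>
      have e : (proto A B).act i ((conf g).st i) = .flip (fun b => norm1 A B i r (next b)) := by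
        show cact A B i (g.st i) = _
        rw [hs]; simp only [cact, ha]; rfl
      have hs1 : (A.cfg (g.H1 r ++ [(i, coin)])).st i = next coin := by
        rw [Sub.cfg_snoc]; unfold Sub.step; simp only; rw [← hst, ha]; simp
      have hs2 : (A.cfg (g.H1 r ++ [(i, coin)])).mem = (A.cfg (g.H1 r)).mem := by
        rw [Sub.cfg_snoc]; unfold Sub.step; simp only; rw [← hst, ha]
      rw [pstep_flip e]
      apply config_ext
      · simp only [gstep, hs, conf, hs1]; rfl
      · intro q
        obtain ⟨r', κ, j'⟩ := q
        cases κ with
        | coin1 =>
          by_cases hr : r' = r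
          · subst hr; simp [gstep, hs, conf, hs2] <;> rfl
          · simp [gstep, hs, conf, hr] <;> rfl
        | _ => simp [gstep, hs, conf] <;> rfl
    | out o => exact absurd ha (hno o)
  | s2 r s =>
    obtain ⟨hst, hno, -, hlt⟩ := hg.st2 i r s hs
    cases ha : B.act i s with
    | read j next =>
      have e : (proto A B).act i ((conf g).st i) =
          .read (r, .coin2, j) (fun v => norm2 A B i r (next v.m2)) := by
        show cact A B i (g.st i) = _
        rw [hs]; simp only [cact, ha]; rfl
      have hs1 : (B.cfg (g.H2 r ++ [(i, coin)])).st i = next ((B.cfg (g.H2 r)).mem j) := by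
        rw [Sub.cfg_snoc]; unfold Sub.step; simp only; rw [← hst, ha]; simp
      have hs2 : (B.cfg (g.H2 r ++ [(i, coin)])).mem = (B.cfg (g.H2 r)).mem := by
        rw [Sub.cfg_snoc]; unfold Sub.step; simp only; rw [← hst, ha]
      rw [pstep_read e]
      apply config_ext
      · simp only [gstep, hs, conf, hs1]; rfl
      · intro q
        obtain ⟨r', κ, j'⟩ := q
        cases κ with
        | coin2 =>
          by_cases hr : r' = r
          · subst hr; simp [gstep, hs, conf, hs2] <;> rfl
          · simp [gstep, hs, conf, hr] <;> rfl
        | _ => simp [gstep, hs, conf] <;> rfl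
    | write v next =>
      have e : (proto A B).act i ((conf g).st i) =
          .write (r, .coin2, i) rfl ⟨none, none, A.v0, v⟩ (norm2 A B i r next) := by
        show cact A B i (g.st i) = _
        rw [hs]; simp only [cact, ha]; rfl
      have hs1 : (B.cfg (g.H2 r ++ [(i, coin)])).st i = next := by
        rw [Sub.cfg_snoc]; unfold Sub.step; simp only; rw [← hst, ha]; simp
      have hs2 : (B.cfg (g.H2 r ++ [(i, coin)])).mem = update (B.cfg (g.H2 r)).mem i v := by
        rw [Sub.cfg_snoc]; unfold Sub.step; simp only; rw [← hst, ha]
      apply config_ext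
      · rw [pstep_write_st e]; simp only [gstep, hs, conf, hs1]; rfl
      · intro q
        obtain ⟨hq1, hq2⟩ := pstep_write_mem (b := coin) e q
        rcases eq_or_ne q (r, Kind.coin2, i) with h | h
        · rw [hq1 h, h]; simp [gstep, hs, conf, hs2] <;> rfl
        · rw [hq2 h]
          obtain ⟨r', κ, j'⟩ := q
          cases κ with
          | coin2 =>
            by_cases hr : r' = r
            · subst hr
              have hj : j' ≠ i := by rintro rfl; exact h rfl
              simp [gstep, hs, conf, hs2, hj] <;> rfl
            · simp [gstep, hs, conf, hr] <;> rfl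
          | _ => simp [gstep, hs, conf] <;> rfl
    | flip next =>
      have e : (proto A B).act i ((conf g).st i) = .flip (fun b => norm2 A B i r (next b)) := by
        show cact A B i (g.st i) = _
        rw [hs]; simp only [cact, ha]; rfl
      have hs1 : (B.cfg (g.H2 r ++ [(i, coin)])).st i = next coin := by
        rw [Sub.cfg_snoc]; unfold Sub.step; simp only; rw [← hst, ha]; simp
      have hs2 : (B.cfg (g.H2 r ++ [(i, coin)])).mem = (B.cfg (g.H2 r)).mem := by
        rw [Sub.cfg_snoc]; unfold Sub.step; simp only; rw [← hst, ha]
      rw [pstep_flip e]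
      apply config_ext
      · simp only [gstep, hs, conf, hs1]; rfl
      · intro q
        obtain ⟨r', κ, j'⟩ := q
        cases κ with
        | coin2 =>
          by_cases hr : r' = r
          · subst hr; simp [gstep, hs, conf, hs2] <;> rfl
          · simp [gstep, hs, conf, hr] <;> rfl
        | _ => simp [gstep, hs, conf] <;> rfl
    | out o => exact absurd ha (hno o)
  | dec r x =>
    have e : (proto A B).act i ((conf g).st i) = .decide x := by
      show cact A B i (g.st i) = _
      rw [hs]; rfl
    rw [pstep_decide e]
    simp only [gstep, hs]

theorem conf_ghost (inp : Fin n → Bool) (h : List (Event n)) :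
    conf (ghost A B inp h) = (proto A B).cfgOf inp h := by
  induction h using List.reverseRecOn with
  | nil =>
    rw [ghost_nil, Protocol.cfgOf_nil]
    apply config_ext
    · rfl
    · intro q
      obtain ⟨r', κ, j'⟩ := q
      cases κ <;> rfl
  | append_singleton h e ih =>
    rw [ghost_snoc, Protocol.cfgOf_snoc, conf_gstep (inv_ghost inp h), ih]

end RC.Cons
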